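import Mathlib

/-!
# MP_d7db32_ag, Eq/V/Tr: a trail in a balanced graph, beginning with a given arrow

The proof of `tru` in U/Tr; the first state is `({a₀}, x * g a₀)`.
-/

set_option autoImplicit false

namespace PadDet.Eq

theorem trv {m : ℕ} {A : Finset (Fin m)} {β α g : Fin m → ℂ} {y : ℂ}
    (hg : ∀ a ∈ A, α a = g a * β a) {a₀ : Fin m} (ha₀ : a₀ ∈ A)
    (hbal : ∀ ω : ℂ, (A.filter fun a => β a = ω).card + (if ω = y then 1 else 0) =
      (A.filter fun a => α a = ω).card + (if ω = β a₀ then 1 else 0))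
    (Q : Finset (Fin m) → Prop) (h0 : Q {a₀})
    (hQ : ∀ U ⊆ A, a₀ ∈ U → Q U → y ≠ β a₀ * ∏ a ∈ U, g a) :
    ∃ U ⊆ A, a₀ ∈ U ∧ ∃ a ∈ A, a ∉ U ∧ Q U ∧ ¬ Q (insert a U) ∧
      β a = β a₀ * ∏ a ∈ U, g a := by
  classical
  obtain ⟨x, hx⟩ : ∃ x, x = β a₀ := ⟨_, rfl⟩
  rw [← hx] at hbal hQ ⊢
  obtain ⟨P, hP⟩ : ∃ P : Finset (Fin m) → Prop, ∀ U, P U ↔ a₀ ∈ U ∧ Q U ∧ ∀ ω : ℂ,
      (U.filter fun a => β a = ω).card + (if ω = x * ∏ a ∈ U, g a then 1 else 0) =
      (U.filter fun a => α a = ω).card + (if ω = x then 1 else 0) := ⟨_, fun _ => Iff.rfl⟩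
  have hne : (A.powerset.filter P).Nonempty := by
    refine ⟨{a₀}, Finset.mem_filter.2 ⟨Finset.mem_powerset.2 (Finset.singleton_subset_iff.2 ha₀),
      (hP _).2 ⟨Finset.mem_singleton_self a₀, h0, fun ω => ?_⟩⟩⟩
    rw [Finset.prod_singleton, Finset.filter_singleton, Finset.filter_singleton]
    have e : x * g a₀ = α a₀ := by
      rw [hg a₀ ha₀, hx]
      ring
    rw [e, ← hx]
    have e1 : (if ω = x then 1 else 0) = (if x = ω then 1 else 0 : ℕ) := by
      simp only [eq_comm]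
    have e2 : (if ω = α a₀ then 1 else 0) = (if α a₀ = ω then 1 else 0 : ℕ) := by
      simp only [eq_comm]
    rw [e1, e2]
    split_ifs <;> simp
  obtain ⟨U, hU, hmax⟩ := Finset.exists_max_image _ Finset.card hne
  obtain ⟨hUA, hPU⟩ := Finset.mem_filter.1 hU
  rw [Finset.mem_powerset] at hUA
  obtain ⟨h0U, hQU, hst⟩ := (hP U).1 hPU
  have hv : y ≠ x * ∏ a ∈ U, g a := hQ U hUA h0U hQU
  obtain ⟨v, hveq⟩ : ∃ v, v = x * ∏ a ∈ U, g a := ⟨_, rfl⟩
  rw [← hveq] at hv
  have hex : ∃ a ∈ A, a ∉ U ∧ β a = v := by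
    by_contra hno
    push Not at hno
    have h1 : (A.filter fun a => β a = v).card ≤ (U.filter fun a => β a = v).card := by
      refine Finset.card_le_card fun a ha => ?_
      obtain ⟨ha1, ha2⟩ := Finset.mem_filter.1 ha
      refine Finset.mem_filter.2 ⟨?_, ha2⟩
      by_contra haU
      exact hno a ha1 haU ha2
    have h2 : (U.filter fun a => α a = v).card ≤ (A.filter fun a => α a = v).card :=
      Finset.card_le_card (Finset.filter_subset_filter _ hUA)
    have h3 := hst v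
    have h4 := hbal v
    rw [if_pos hveq] at h3
    rw [if_neg hv.symm] at h4
    omega
  obtain ⟨a, haA, haU, hav⟩ := hex
  refine ⟨U, hUA, h0U, a, haA, haU, hQU, fun hQ' => ?_, by rw [hav, hveq]⟩
  have hins : P (insert a U) := by
    refine (hP _).2 ⟨Finset.mem_insert_of_mem h0U, hQ', fun ω => ?_⟩
    have e : x * ∏ b ∈ insert a U, g b = α a := by
      rw [Finset.prod_insert haU, hg a haA, hav, hveq]
      ring
    have h3 := hst ω
    rw [← hveq, ← hav] at h3
    rw [e, Finset.card_filter, Finset.card_filter, Finset.sum_insert haU,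
      Finset.sum_insert haU, ← Finset.card_filter, ← Finset.card_filter]
    have e1 : (if ω = β a then 1 else 0) = (if β a = ω then 1 else 0 : ℕ) := by
      simp only [eq_comm]
    have e2 : (if ω = α a then 1 else 0) = (if α a = ω then 1 else 0 : ℕ) := by
      simp only [eq_comm]
    rw [e1] at h3
    rw [e2]
    omega
  have h5 := hmax _ (Finset.mem_filter.2 ⟨Finset.mem_powerset.2
    (Finset.insert_subset haA hUA), hins⟩)
  rw [Finset.card_insert_of_notMem haU] at h5
  omega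

end PadDet.Eq
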