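import Pool.Agent.H.MP_d7db32_ag.Eq.V.Bs

/-!
# MP_d7db32_ag, Eq/V/Wt: products along a matching

(Compare U/Wt, where the same is done for a part of the vertices.) Define the exponents `w : Fin (2 k + 1) → ℤ` of `wtq t s π f ε`: `w (lf i) = f i`, `w (rt v) = f (π.symm v)`, `w (ls k) = 2 ε`, so `wtq t s π f ε = s ^ ε * ∏ v, t v ^ w v`
(split the product over `Fin (2 k + 1)` in the `lf i`, the `rt i`, `i : Fin k`, and `ls k`). `wq_two`: all exponents are `2`.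
`wq_inj`: `s ^ (ε - ε') * ∏ t ^ (w - w') = 1`, so `w - w'` is a constant `d` (`ht.ind`), `d = 2 ε - 2 ε'` is `0`, `2` or `-2`. If `d = 2` then `f i = f' i + 2` for all `i`, against `f i = 0` for some `i`; if `d = -2` then `f i = f' i - 2 ≤ 0` for all `i`, against `h1`. So `d = 0`.
`wq_full`: the same with `f' = 2`, `ε' = 1` (`wq_two`): `d = 2 ε - 2` and `f i = 2 + d` for all `i`, one `f i` is `0`, so `d = -2`.
-/

set_option autoImplicit false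

namespace PadDet.Eq

variable {k : ℕ}

private theorem Wt_splitq (g : Fin (2 * k + 1) → ℂ) :
    ∏ v, g v = (∏ i : Fin k, g (lf i)) * (∏ i : Fin k, g (rt i)) * g (ls k) := by
  have e : 2 * k + 1 = k + k + 1 := by omega
  rw [← (finCongr e).symm.prod_comp g, Fin.prod_univ_castSucc, Fin.prod_univ_add]
  have h1 : ∀ i : Fin k, (finCongr e).symm (Fin.castSucc (Fin.castAdd k i)) = lf i :=
    fun i => Fin.ext rfl
  have h2 : ∀ i : Fin k, (finCongr e).symm (Fin.castSucc (Fin.natAdd k i)) = rt i :=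
    fun i => Fin.ext rfl
  have h3 : (finCongr e).symm (Fin.last (k + k)) = ls k :=
    Fin.ext (show k + k = 2 * k by omega)
  simp only [h1, h2, h3]

/-- The exponents. -/
private def Wt_wq (π : Equiv.Perm (Fin k)) (f : Fin k → ℕ) (ε : ℕ)
    (v : Fin (2 * k + 1)) : ℤ :=
  if h1 : v.val < k then (f ⟨v.val, h1⟩ : ℤ)
  else if h2 : v.val < 2 * k then (f (π.symm ⟨v.val - k, by omega⟩) : ℤ)
  else 2 * ε

private theorem Wt_lfq (π : Equiv.Perm (Fin k)) (f : Fin k → ℕ) (ε : ℕ) (i : Fin k) :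
    Wt_wq π f ε (lf i) = f i := by
  have h1 : (lf i : Fin (2 * k + 1)).val < k := i.isLt
  unfold Wt_wq
  rw [dif_pos h1]
  rfl

private theorem Wt_rtq (π : Equiv.Perm (Fin k)) (f : Fin k → ℕ) (ε : ℕ) (i : Fin k) :
    Wt_wq π f ε (rt i) = f (π.symm i) := by
  have h0 : (rt i : Fin (2 * k + 1)).val = k + i.val := rfl
  have hi := i.isLt
  have h1 : ¬ (rt i : Fin (2 * k + 1)).val < k := by omega
  have h2 : (rt i : Fin (2 * k + 1)).val < 2 * k := by omega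
  unfold Wt_wq
  rw [dif_neg h1, dif_pos h2]
  congr 3
  exact Fin.ext (by change (rt i : Fin (2 * k + 1)).val - k = i.val; omega)

private theorem Wt_lsq (π : Equiv.Perm (Fin k)) (f : Fin k → ℕ) (ε : ℕ) :
    Wt_wq π f ε (ls k) = 2 * ε := by
  have h0 : (ls k : Fin (2 * k + 1)).val = 2 * k := rfl
  unfold Wt_wq
  rw [dif_neg (by omega), dif_neg (by omega)]

private theorem Wt_bdq (π : Equiv.Perm (Fin k)) {f : Fin k → ℕ} {ε : ℕ}
    (hf : ∀ i, f i ≤ 2) (hε : ε ≤ 1) (v : Fin (2 * k + 1)) :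
    0 ≤ Wt_wq π f ε v ∧ Wt_wq π f ε v ≤ 2 := by
  unfold Wt_wq
  split_ifs with h1 h2
  · have := hf ⟨v.val, h1⟩
    omega
  · have := hf (π.symm ⟨v.val - k, by omega⟩)
    omega
  · omega

private theorem Wt_prodq (t : Fin (2 * k + 1) → ℂ) (s : ℂ) (π : Equiv.Perm (Fin k))
    (f : Fin k → ℕ) (ε : ℕ) :
    wtq t s π f ε = s ^ ε * ∏ v, t v ^ Wt_wq π f ε v := by
  rw [Wt_splitq]
  simp only [Wt_lfq, Wt_rtq, Wt_lsq]
  unfold wtq
  have h1 : ∏ i : Fin k, t (rt i) ^ (f (π.symm i) : ℤ) =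
      ∏ i : Fin k, t (rt (π i)) ^ (f i : ℤ) := by
    rw [← Equiv.prod_comp π]
    simp only [Equiv.symm_apply_apply]
  have h2 : (2 * (ε : ℤ)) = ((2 * ε : ℕ) : ℤ) := by push_cast; ring
  have h3 : ∏ i, (t (lf i) * t (rt (π i))) ^ f i =
      ∏ i, t (lf i) ^ (f i : ℤ) * t (rt (π i)) ^ (f i : ℤ) := by
    refine Finset.prod_congr rfl fun i _ => ?_
    rw [zpow_natCast, zpow_natCast, mul_pow]
  rw [h1, ← Finset.prod_mul_distrib, h2, zpow_natCast, h3, pow_mul, mul_pow]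
  ring

theorem wq_two (t : Fin (2 * k + 1) → ℂ) (s : ℂ) (π : Equiv.Perm (Fin k)) :
    wtq t s π (fun _ => 2) 1 = s * (∏ i, t i) ^ 2 := by
  rw [Wt_splitq t]
  unfold wtq
  have h1 : ∏ i : Fin k, t (rt i) = ∏ i : Fin k, t (rt (π i)) :=
    (Equiv.prod_comp π fun i => t (rt i)).symm
  rw [h1, Finset.prod_pow, Finset.prod_mul_distrib]
  ring

private theorem Wt_diffq {t : Fin (2 * k + 1) → ℂ} {s : ℂ} (ht : Dsc t s)
    {π π' : Equiv.Perm (Fin k)} {f f' : Fin k → ℕ} {ε ε' : ℕ} (hf : ∀ i, f i ≤ 2)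
    (hf' : ∀ i, f' i ≤ 2) (hε : ε ≤ 1) (hε' : ε' ≤ 1)
    (he : wtq t s π f ε = wtq t s π' f' ε') (v : Fin (2 * k + 1)) :
    Wt_wq π f ε v - Wt_wq π' f' ε' v = 2 * (ε : ℤ) - 2 * ε' := by
  rw [Wt_prodq, Wt_prodq] at he
  have hp : ∀ (σ : Equiv.Perm (Fin k)) (g : Fin k → ℕ) (η : ℕ),
      ∏ v, t v ^ Wt_wq σ g η v ≠ 0 := fun σ g η =>
    Finset.prod_ne_zero_iff.2 fun v _ => zpow_ne_zero _ (ht.ne v)
  have h1 : s ^ ((ε : ℤ) - ε') * ∏ v, t v ^ (Wt_wq π f ε v - Wt_wq π' f' ε' v) = 1 := by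
    have h2 : ∏ v, t v ^ (Wt_wq π f ε v - Wt_wq π' f' ε' v) =
        (∏ v, t v ^ Wt_wq π f ε v) / ∏ v, t v ^ Wt_wq π' f' ε' v := by
      rw [← Finset.prod_div_distrib]
      exact Finset.prod_congr rfl fun v _ => zpow_sub₀ (ht.ne v) _ _
    rw [h2, zpow_sub₀ ht.sne, zpow_natCast, zpow_natCast, div_mul_div_comm, he]
    exact div_self (mul_ne_zero (pow_ne_zero _ ht.sne) (hp _ _ _))
  have h3 := ht.ind (fun v => Wt_wq π f ε v - Wt_wq π' f' ε' v) ((ε : ℤ) - ε')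
    (fun v => by
      have h4 := Wt_bdq π hf hε v
      have h5 := Wt_bdq π' hf' hε' v
      exact abs_le.2 (by omega)) (abs_le.2 (by omega)) h1 v (ls k)
  rw [Wt_lsq, Wt_lsq] at h3
  exact h3

theorem wq_inj {t : Fin (2 * k + 1) → ℂ} {s : ℂ} (ht : Dsc t s)
    {π π' : Equiv.Perm (Fin k)} {f f' : Fin k → ℕ} {ε ε' : ℕ} (hf : ∀ i, f i ≤ 2)
    (hf' : ∀ i, f' i ≤ 2) (hε : ε ≤ 1) (hε' : ε' ≤ 1)
    (he : wtq t s π f ε = wtq t s π' f' ε') (h0 : ∃ i, f i = 0) (h1 : ∃ i, f i ≠ 0) :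
    f = f' ∧ ∀ v, f (π.symm v) = f' (π'.symm v) := by
  have hd := Wt_diffq ht hf hf' hε hε' he
  have hl : ∀ i, (f i : ℤ) - f' i = 2 * (ε : ℤ) - 2 * ε' := fun i => by
    have h2 := hd (lf i)
    rwa [Wt_lfq, Wt_lfq] at h2
  have hr : ∀ i, (f (π.symm i) : ℤ) - f' (π'.symm i) = 2 * (ε : ℤ) - 2 * ε' := fun i => by
    have h2 := hd (rt i)
    rwa [Wt_rtq, Wt_rtq] at h2
  have hz : ε = ε' := by
    obtain ⟨i, hi⟩ := h0
    obtain ⟨i', hi'⟩ := h1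
    have h2 := hl i
    have h3 := hl i'
    have h4 := hf i'
    have h5 := hf' i'
    omega
  subst hz
  refine ⟨funext fun i => ?_, fun v => ?_⟩
  · have h2 := hl i
    omega
  · have h2 := hr v
    omega

theorem wq_full {t : Fin (2 * k + 1) → ℂ} {s : ℂ} (ht : Dsc t s)
    {π : Equiv.Perm (Fin k)} {f : Fin k → ℕ} {ε : ℕ} (hf : ∀ i, f i ≤ 2) (hε : ε ≤ 1)
    (he : wtq t s π f ε = s * (∏ i, t i) ^ 2) (h0 : ∃ i, f i = 0) :
    (∀ i, f i = 0) ∧ ε = 0 := by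
  rw [← wq_two t s π] at he
  have hd := Wt_diffq ht hf (fun _ => le_refl 2) hε (le_refl 1) he
  have hl : ∀ i, (f i : ℤ) - 2 = 2 * (ε : ℤ) - 2 := fun i => by
    have h2 := hd (lf i)
    rw [Wt_lfq, Wt_lfq] at h2
    exact_mod_cast h2
  obtain ⟨i, hi⟩ := h0
  have h1 := hl i
  have h2 : ε = 0 := by omega
  refine ⟨fun i' => ?_, h2⟩
  have h3 := hl i'
  omega

theorem wq_full' {t : Fin (2 * k + 1) → ℂ} {s : ℂ} (ht : Dsc t s)
    {π : Equiv.Perm (Fin k)} {f : Fin k → ℕ} {ε : ℕ} (hf : ∀ i, f i ≤ 2) (hε : ε ≤ 1)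
    (he : wtq t s π f ε = s * (∏ i, t i) ^ 2) (h0 : ∃ i, f i ≠ 2) :
    (∀ i, f i = 0) ∧ ε = 0 := by
  rw [← wq_two t s π] at he
  have hd := Wt_diffq ht hf (fun _ => le_refl 2) hε (le_refl 1) he
  have hl : ∀ i, (f i : ℤ) - 2 = 2 * (ε : ℤ) - 2 := fun i => by
    have h2 := hd (lf i)
    rw [Wt_lfq, Wt_lfq] at h2
    exact_mod_cast h2
  obtain ⟨i, hi⟩ := h0
  have h1 := hl i
  have h2 : ε = 0 := by omega
  refine ⟨fun i' => ?_, h2⟩
  have h3 := hl i'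
  omega

theorem wq_inj' {t : Fin (2 * k + 1) → ℂ} {s : ℂ} (ht : Dsc t s)
    {π π' : Equiv.Perm (Fin k)} {f f' : Fin k → ℕ} {ε ε' : ℕ} (hf : ∀ i, f i ≤ 2)
    (hf' : ∀ i, f' i ≤ 2) (hε : ε ≤ 1) (hε' : ε' ≤ 1)
    (he : wtq t s π f ε = wtq t s π' f' ε') (h0 : ∃ i, f i ≠ 2) (h1 : ∃ i, f' i ≠ 2) :
    f = f' ∧ ∀ v, f (π.symm v) = f' (π'.symm v) := by
  have hd := Wt_diffq ht hf hf' hε hε' he
  have hl : ∀ i, (f i : ℤ) - f' i = 2 * (ε : ℤ) - 2 * ε' := fun i => by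
    have h2 := hd (lf i)
    rwa [Wt_lfq, Wt_lfq] at h2
  have hr : ∀ i, (f (π.symm i) : ℤ) - f' (π'.symm i) = 2 * (ε : ℤ) - 2 * ε' := fun i => by
    have h2 := hd (rt i)
    rwa [Wt_rtq, Wt_rtq] at h2
  have hz : ε = ε' := by
    obtain ⟨i, hi⟩ := h0
    obtain ⟨i', hi'⟩ := h1
    have h2 := hl i
    have h3 := hl i'
    have h4 := hf i
    have h5 := hf' i'
    have h6 := hf i'
    have h7 := hf' i
    omega
  subst hz
  refine ⟨funext fun i => ?_, fun v => ?_⟩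
  · have h2 := hl i
    omega
  · have h2 := hr v
    omega

end PadDet.Eq
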