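import Pool.Agent.H.MP_d7db32_ag.Eq.U.Tm
import Pool.Agent.H.MP_d7db32_ag.Eq.U.Mv
import Pool.Agent.H.MP_d7db32_ag.Eq.V.Tr
import Pool.Agent.H.MP_d7db32_ag.Eq.V.Wt

/-!
# MP_d7db32_ag, Eq/V/Cg: a column on the trail where a property changes

The proof of `chv` (V/Ch, helper9) with a general property `R` of the exponents, and its
consequence: for every `z ≤ k` a column of the trail with `z` zero exponents.
-/

set_option autoImplicit false

namespace PadDet.Eq

open Matrix

/-- The factor of a column. -/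
private noncomputable def Cg_g {k : ℕ} (t : Fin (2 * k + 1) → ℂ) (s : ℂ)
    (π : Equiv.Perm (Fin k)) : Option (Fin k ⊕ Unit) → ℂ
  | none => 1
  | some (Sum.inl i) => t (lf i) * t (rt (π i))
  | some (Sum.inr _) => s * t (ls k) ^ 2

private theorem Cg_prod1 {k : ℕ} (t : Fin (2 * k + 1) → ℂ) (s : ℂ)
    (π : Equiv.Perm (Fin k)) (o : Option (Fin k ⊕ Unit)) :
    Cg_g t s π o = (∏ i, (t (lf i) * t (rt (π i))) ^
      (if o = some (Sum.inl i) then 1 else 0)) *
        (s * t (ls k) ^ 2) ^ (if o = some (Sum.inr ()) then 1 else 0) := by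
  classical
  rcases o with _ | i | u
  · simp [Cg_g]
  · have h1 : ¬ (some (Sum.inl i : Fin k ⊕ Unit) = some (Sum.inr ())) := by simp
    rw [if_neg h1, pow_zero, mul_one]
    show t (lf i) * t (rt (π i)) = _
    rw [Finset.prod_eq_single i]
    · rw [if_pos rfl, pow_one]
    · intro b _ hb
      rw [if_neg, pow_zero]
      intro h2
      exact hb (Sum.inl_injective (Option.some_injective _ h2)).symm
    · intro h2
      exact absurd (Finset.mem_univ _) h2
  · have h1 : (some (Sum.inr u : Fin k ⊕ Unit) = some (Sum.inr ())) := rfl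
    rw [if_pos h1, pow_one]
    show s * t (ls k) ^ 2 = _
    have h2 : ∏ i, (t (lf i) * t (rt (π i))) ^
      (if some (Sum.inr u : Fin k ⊕ Unit) = some (Sum.inl i) then 1 else 0) = 1 := by
      refine Finset.prod_eq_one fun i' _ => ?_
      rw [if_neg (by simp), pow_zero]
    rw [h2, one_mul]

/-- The numbers of the columns of `U` at the edges. -/
private def Cg_f {k m : ℕ} (χ : Fin m → Option (Fin k ⊕ Unit))
    (U : Finset (Fin m)) (i : Fin k) : ℕ :=
  (U.filter fun a => χ a = some (Sum.inl i)).card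

private def Cg_e {k m : ℕ} (χ : Fin m → Option (Fin k ⊕ Unit)) (U : Finset (Fin m)) : ℕ :=
  (U.filter fun a => χ a = some (Sum.inr ())).card

private theorem Cg_prod {k m : ℕ} (t : Fin (2 * k + 1) → ℂ) (s : ℂ)
    (π : Equiv.Perm (Fin k)) (χ : Fin m → Option (Fin k ⊕ Unit))
    (U : Finset (Fin m)) :
    ∏ a ∈ U, Cg_g t s π (χ a) = wtq t s π (Cg_f χ U) (Cg_e χ U) := by
  simp only [Cg_prod1 t s π]
  rw [Finset.prod_mul_distrib, Finset.prod_comm]
  unfold wtq
  congr 1
  · refine Finset.prod_congr rfl fun i _ => ?_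
    rw [Finset.prod_pow_eq_pow_sum, ← Finset.card_filter]
    rfl
  · rw [Finset.prod_pow_eq_pow_sum, ← Finset.card_filter]
    rfl

private theorem Cg_bal {m : ℕ} {β α : Fin m → ℂ} {x y : ℂ}
    (hbal : ∀ ω : ℂ, (Finset.univ.filter fun a => β a = ω).card + (if ω = y then 1 else 0) =
      (Finset.univ.filter fun b => α b = ω).card + (if ω = x then 1 else 0))
    (τ : Equiv.Perm (Fin m)) (A : Finset (Fin m)) (hA : ∀ a, a ∉ A → α (τ a) = β a) (ω : ℂ) :
    (A.filter fun a => β a = ω).card + (if ω = y then 1 else 0) =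
      (A.filter fun a => α (τ a) = ω).card + (if ω = x then 1 else 0) := by
  have h1 := hbal ω
  have h2 : (Finset.univ.filter fun b => α b = ω).card =
      (Finset.univ.filter fun a => α (τ a) = ω).card := by
    rw [Finset.card_filter, Finset.card_filter]
    exact (Equiv.sum_comp τ fun b => if α b = ω then 1 else 0).symm
  rw [h2] at h1
  rw [Finset.card_filter, Finset.card_filter] at h1 ⊢
  have h3 := Finset.sum_add_sum_compl A fun a => if β a = ω then 1 else 0
  have h4 := Finset.sum_add_sum_compl A fun a => if α (τ a) = ω then 1 else 0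
  have h5 : (∑ a ∈ Aᶜ, if α (τ a) = ω then 1 else 0) = ∑ a ∈ Aᶜ, if β a = ω then 1 else 0 :=
    Finset.sum_congr rfl fun a ha => by rw [hA a (Finset.mem_compl.1 ha)]
  omega

private theorem Cg_insert {k m : ℕ} (χ : Fin m → Option (Fin k ⊕ Unit))
    (U : Finset (Fin m)) {a : Fin m} (ha : a ∉ U) (i : Fin k) :
    Cg_f χ (insert a U) i = Cg_f χ U i + if χ a = some (Sum.inl i) then 1 else 0 := by
  classical
  unfold Cg_f
  rw [Finset.filter_insert]
  split_ifs with h
  · rw [Finset.card_insert_of_notMem fun h1 => ha (Finset.mem_filter.1 h1).1]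
  · rfl

theorem chg {k m : ℕ} {t : Fin (2 * k + 1) → ℂ} {s : ℂ} (ht : Dsc t s) {c : ℂ}
    {L : Matrix (Fin m) (Fin m) ℂ}
    {M : Matrix (Fin (2 * k + 1)) (Fin (2 * k + 1)) ℂ →ₗ[ℂ] Matrix (Fin m) (Fin m) ℂ}
    {β α : Fin m → ℂ} (hG : Zd t s m c L M β α) {a₀ : Fin m} (h0 : ∀ b, L b a₀ = 0) {y : ℂ}
    (hy : y = s * (∏ i, t i) ^ 2 * β a₀)
    (hbal : ∀ ω : ℂ, (Finset.univ.filter fun a => β a = ω).card + (if ω = y then 1 else 0) =
      (Finset.univ.filter fun b => α b = ω).card + (if ω = β a₀ then 1 else 0))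
    (π : Equiv.Perm (Fin k)) (R : (Fin k → ℕ) → Prop)
    (hR0 : ∀ f : Fin k → ℕ, (∀ i, f i ≤ 1) → (∀ i i', f i ≠ 0 → f i' ≠ 0 → i = i') → R f)
    (hR2 : ∀ f : Fin k → ℕ, R f → ∃ i, f i ≠ 2) :
    ∃ (a : Fin m) (f : Fin k → ℕ) (ε : ℕ) (i : Fin k), (∀ i, f i ≤ 2) ∧ ε ≤ 1 ∧ R f ∧
      ¬ R (fun i' => f i' + if i' = i then 1 else 0) ∧
      β a = β a₀ * wtq t s π f ε := by
  classical
  obtain ⟨C₀, hC₀, hmv⟩ := mv π
  obtain ⟨τ, χ, hn, hs, hcard⟩ := trm L (fun e => M (mvE π e))
    (mul_ne_zero hG.c0 hC₀) mvd (by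
      intro v hv
      have e1 : ∑ e, v e • M (mvE π e) = M (∑ e, v e • mvE π e) := by
        rw [map_sum]
        exact Finset.sum_congr rfl fun e _ => (map_smul M _ _).symm
      rw [e1, hG.det, hmv v hv, mul_assoc])
  have hnone : ∀ a, χ a = none → α (τ a) = β a := fun a hχ => hG.gL _ _ (hn a hχ)
  have hall : ∀ a, α (τ a) = Cg_g t s π (χ a) * β a := by
    intro a
    rcases hχ : χ a with _ | i | u
    · rw [hnone a hχ]
      show β a = 1 * β a
      rw [one_mul]
    · have h3 : M (Matrix.single (lf i) (rt (π i)) 1 -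
          Matrix.single (rt (π i)) (lf i) 1) (τ a) a ≠ 0 := hs a _ hχ
      exact hG.gE _ _ _ _ h3
    · have h3 : M (Matrix.single (ls k) (ls k) 1) (τ a) a ≠ 0 := hs a _ hχ
      exact hG.gD _ _ _ h3
  have hF : ∀ U i, Cg_f χ U i ≤ 2 := by
    intro U i
    have h3 : (Finset.univ.filter fun a => χ a = some (Sum.inl i)).card = 2 :=
      hcard (Sum.inl i)
    rw [← h3]
    exact Finset.card_le_card (Finset.filter_subset_filter _ (Finset.subset_univ U))
  have hE : ∀ U, Cg_e χ U ≤ 1 := by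
    intro U
    have h3 : (Finset.univ.filter fun a => χ a = some (Sum.inr ())).card = 1 :=
      hcard (Sum.inr ())
    rw [← h3]
    exact Finset.card_le_card (Finset.filter_subset_filter _ (Finset.subset_univ U))
  obtain ⟨A, hA⟩ : ∃ A : Finset (Fin m), ∀ a, a ∈ A ↔ χ a ≠ none :=
    ⟨Finset.univ.filter fun a => χ a ≠ none, fun a => by
      rw [Finset.mem_filter]
      exact ⟨fun h => h.2, fun h => ⟨Finset.mem_univ _, h⟩⟩⟩
  have hA0 : χ a₀ ≠ none := fun h3 => hn a₀ h3 (h0 _)
  have hone : ∀ i, Cg_f χ {a₀} i = if χ a₀ = some (Sum.inl i) then 1 else 0 := by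
    intro i
    unfold Cg_f
    rw [Finset.filter_singleton]
    split_ifs <;> simp
  obtain ⟨U, -, hU0, a, -, haU, hQ1, hQ2, hβ⟩ := trv (A := A) (β := β)
    (α := fun a => α (τ a)) (g := fun a => Cg_g t s π (χ a)) (y := y)
    (fun a _ => hall a) (a₀ := a₀) ((hA a₀).2 hA0)
    (Cg_bal hbal τ A fun a ha => hnone a (by
      by_contra h3
      exact ha ((hA a).2 h3)))
    (fun U => R (Cg_f χ U)) (by
      refine hR0 _ (fun i => ?_) fun i i' hi hi' => ?_
      · rw [hone i]
        split_ifs <;> omega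
      · rw [hone i] at hi
        rw [hone i'] at hi'
        have h3 : χ a₀ = some (Sum.inl i) := by
          by_contra h3
          exact hi (if_neg h3)
        have h4 : χ a₀ = some (Sum.inl i') := by
          by_contra h4
          exact hi' (if_neg h4)
        exact Sum.inl_injective (Option.some_injective _ (h3.symm.trans h4))) (by
      intro U _ hU0 hU he
      have h3 : wtq t s π (Cg_f χ U) (Cg_e χ U) = s * (∏ i, t i) ^ 2 := by
        rw [← Cg_prod t s π χ U]
        have h4 := hy.symm.trans he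
        rw [mul_comm (β a₀)] at h4
        exact (mul_right_cancel₀ (hG.nβ a₀) h4).symm
      obtain ⟨h8, h9⟩ := wq_full' ht (hF U) (hE U) h3 (hR2 _ hU)
      rcases hχ : χ a₀ with _ | i | u
      · exact hA0 hχ
      · have h10 := h8 i
        unfold Cg_f at h10
        rw [Finset.card_eq_zero, Finset.filter_eq_empty_iff] at h10
        exact h10 hU0 hχ
      · unfold Cg_e at h9
        rw [Finset.card_eq_zero, Finset.filter_eq_empty_iff] at h9
        exact h9 hU0 hχ)
  have hins : ∀ i, Cg_f χ (insert a U) i =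
      Cg_f χ U i + if χ a = some (Sum.inl i) then 1 else 0 := Cg_insert χ U haU
  have hnot : ¬ R (fun i => Cg_f χ U i + if χ a = some (Sum.inl i) then 1 else 0) := by
    have e1 : Cg_f χ (insert a U) =
      fun i => Cg_f χ U i + if χ a = some (Sum.inl i) then 1 else 0 := funext hins
    rw [← e1]
    exact hQ2
  have hex : ∃ i, χ a = some (Sum.inl i) := by
    by_contra hno
    push Not at hno
    apply hnot
    have e1 : (fun i => Cg_f χ U i + if χ a = some (Sum.inl i) then 1 else 0) = Cg_f χ U := by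
      funext i
      rw [if_neg (hno i), add_zero]
    rw [e1]
    exact hQ1
  obtain ⟨i, hi⟩ := hex
  refine ⟨a, Cg_f χ U, Cg_e χ U, i, hF U, hE U, hQ1, ?_, ?_⟩
  · have e1 : (fun i' => Cg_f χ U i' + if i' = i then 1 else 0) =
        fun i' => Cg_f χ U i' + if χ a = some (Sum.inl i') then 1 else 0 := by
      funext i'
      congr 1
      refine if_congr ?_ rfl rfl
      rw [hi]
      constructor
      · rintro rfl
        rfl
      · intro h3
        exact (Sum.inl_injective (Option.some_injective _ h3)).symm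
    rw [e1]
    exact hnot
  · rw [hβ, Cg_prod t s π χ U]

theorem chw {k m : ℕ} {t : Fin (2 * k + 1) → ℂ} {s : ℂ} (ht : Dsc t s) {c : ℂ}
    {L : Matrix (Fin m) (Fin m) ℂ}
    {M : Matrix (Fin (2 * k + 1)) (Fin (2 * k + 1)) ℂ →ₗ[ℂ] Matrix (Fin m) (Fin m) ℂ}
    {β α : Fin m → ℂ} (hG : Zd t s m c L M β α) {a₀ : Fin m} (h0 : ∀ b, L b a₀ = 0) {y : ℂ}
    (hy : y = s * (∏ i, t i) ^ 2 * β a₀)
    (hbal : ∀ ω : ℂ, (Finset.univ.filter fun a => β a = ω).card + (if ω = y then 1 else 0) =
      (Finset.univ.filter fun b => α b = ω).card + (if ω = β a₀ then 1 else 0))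
    (hk : 1 ≤ k) (π : Equiv.Perm (Fin k)) {z : ℕ} (hz : z ≤ k) :
    ∃ (a : Fin m) (f : Fin k → ℕ) (ε : ℕ), (∀ i, f i ≤ 2) ∧ ε ≤ 1 ∧ (∃ i, f i ≠ 2) ∧
      (Finset.univ.filter fun i => f i = 0).card = z ∧ β a = β a₀ * wtq t s π f ε := by
  classical
  rcases Nat.eq_zero_or_pos z with rfl | hz0
  · -- no zeros
    obtain ⟨a, f, ε, i, hf, hε, ⟨i₀, hi₀⟩, hR, hβ⟩ := chg ht hG h0 hy hbal π
      (fun f => ∃ i, f i ≤ 1) (fun f hf _ => ⟨⟨0, hk⟩, hf _⟩) (fun f hf => by
        obtain ⟨i, hi⟩ := hf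
        exact ⟨i, by omega⟩)
    push Not at hR
    refine ⟨a, f, ε, hf, hε, ⟨i₀, by omega⟩, ?_, hβ⟩
    rw [Finset.card_eq_zero, Finset.filter_eq_empty_iff]
    intro i' _ h1
    have h2 := hR i'
    rw [h1] at h2
    split_ifs at h2 <;> omega
  rcases Nat.lt_or_ge z k with hzk | hzk
  · obtain ⟨a, f, ε, i, hf, hε, hR1, hR2, hβ⟩ := chg ht hG h0 hy hbal π
      (fun f => z ≤ (Finset.univ.filter fun i => f i = 0).card) (fun f _ hf => by
        have h1 : (Finset.univ.filter fun i => ¬ f i = 0).card ≤ 1 := by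
          rw [Finset.card_le_one]
          intro i hi i' hi'
          exact hf i i' (Finset.mem_filter.1 hi).2 (Finset.mem_filter.1 hi').2
        have h2 := Finset.card_filter_add_card_filter_not (s := Finset.univ) fun i => f i = 0
        rw [Finset.card_univ, Fintype.card_fin] at h2
        omega) (fun f hf => by
        have h8 : 0 < (Finset.univ.filter fun i => f i = 0).card := by omega
        obtain ⟨i, hi⟩ := Finset.card_pos.1 h8
        exact ⟨i, by rw [(Finset.mem_filter.1 hi).2]; omega⟩)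
    have h8 : 0 < (Finset.univ.filter fun i => f i = 0).card := by omega
    obtain ⟨i₀, hi₀⟩ := Finset.card_pos.1 h8
    refine ⟨a, f, ε, hf, hε, ⟨i₀, by rw [(Finset.mem_filter.1 hi₀).2]; omega⟩, ?_, hβ⟩
    have h1 : (Finset.univ.filter fun i => f i = 0).card ≤
        (Finset.univ.filter fun i' => (f i' + if i' = i then 1 else 0) = 0).card + 1 := by
      have h2 : (Finset.univ.filter fun i => f i = 0) ⊆
          (Finset.univ.filter fun i' => (f i' + if i' = i then 1 else 0) = 0) ∪ {i} := by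
        intro i' hi'
        rw [Finset.mem_filter] at hi'
        rw [Finset.mem_union, Finset.mem_filter, Finset.mem_singleton]
        by_cases h3 : i' = i
        · exact Or.inr h3
        · refine Or.inl ⟨Finset.mem_univ _, ?_⟩
          rw [if_neg h3, hi'.2]
      refine (Finset.card_le_card h2).trans ((Finset.card_union_le _ _).trans ?_)
      rw [Finset.card_singleton]
    have h4 : z ≤ (Finset.univ.filter fun i => f i = 0).card := hR1
    have h5 : ¬ z ≤ (Finset.univ.filter fun i' => (f i' + if i' = i then 1 else 0) = 0).card :=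
      hR2
    omega
  · -- only zeros
    have e1 : z = k := le_antisymm hz hzk
    refine ⟨a₀, fun _ => 0, 0, fun _ => Nat.zero_le 2, Nat.zero_le 1,
      ⟨⟨0, hk⟩, (by norm_num : (0 : ℕ) ≠ 2)⟩, ?_, ?_⟩
    · rw [Finset.filter_true_of_mem fun i _ => rfl, Finset.card_univ, Fintype.card_fin, e1]
    · unfold wtq
      simp

end PadDet.Eq
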