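import Pool.Agent.H.MP_d7db32_ag.Eq.U.Cn

/-!
# MP_d7db32_ag, Eq/V/Cw: counting, all levels together
-/

set_option autoImplicit false

namespace PadDet.Eq

theorem cnw {k m : ℕ} (Φ : Equiv.Perm (Fin k) → ℕ → Fin m)
    (f : Equiv.Perm (Fin k) → ℕ → Fin k → ℕ)
    (h1 : ∀ π π' z z', z ≤ k → z' ≤ k → Φ π z = Φ π' z' →
      f π z = f π' z' ∧ ∀ v, f π z (π.symm v) = f π' z' (π'.symm v))
    (h2 : ∀ π z, z ≤ k → (Finset.univ.filter fun i => f π z i = 0).card = z) : 2 ^ k ≤ m := by
  classical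
  obtain ⟨B, hB⟩ : ∃ B : ℕ → Finset (Fin m), ∀ z, B z =
      Finset.univ.image fun π : Equiv.Perm (Fin k) => Φ π z := ⟨_, fun _ => rfl⟩
  have hmem : ∀ z π, Φ π z ∈ B z := fun z π => by
    rw [hB]
    exact Finset.mem_image_of_mem _ (Finset.mem_univ π)
  have hcard : ∀ z, z ≤ k → Nat.choose k z ≤ (B z).card := by
    intro z hz
    refine cnu hz (fun π => (B z).equivFin ⟨Φ π z, hmem z π⟩) (fun π => f π z)
      (fun π π' h => ?_) (fun π => h2 π z hz)
    have h3 : Φ π z = Φ π' z := congrArg Subtype.val ((B z).equivFin.injective h)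
    exact h1 π π' z z hz hz h3
  have hdis : ∀ z ∈ Finset.range (k + 1), ∀ z' ∈ Finset.range (k + 1), z ≠ z' →
      Disjoint (B z) (B z') := by
    intro z hz z' hz' hne
    rw [Finset.mem_range] at hz hz'
    rw [Finset.disjoint_left]
    intro x hx hx'
    rw [hB, Finset.mem_image] at hx hx'
    obtain ⟨π, -, hπ⟩ := hx
    obtain ⟨π', -, hπ'⟩ := hx'
    obtain ⟨h3, -⟩ := h1 π π' z z' (by omega) (by omega) (hπ.trans hπ'.symm)
    have h4 := h2 π z (by omega)
    rw [h3, h2 π' z' (by omega)] at h4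
    exact hne h4.symm
  calc 2 ^ k = ∑ z ∈ Finset.range (k + 1), Nat.choose k z := (Nat.sum_range_choose k).symm
    _ ≤ ∑ z ∈ Finset.range (k + 1), (B z).card :=
      Finset.sum_le_sum fun z hz => hcard z (by rw [Finset.mem_range] at hz; omega)
    _ = ((Finset.range (k + 1)).biUnion B).card :=
      (Finset.card_biUnion fun z hz z' hz' hne => hdis z hz z' hz' hne).symm
    _ ≤ (Finset.univ : Finset (Fin m)).card := Finset.card_le_card (Finset.subset_univ _)
    _ = m := by rw [Finset.card_univ, Fintype.card_fin]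

end PadDet.Eq
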