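import Pool.Agent.H.MP_d7db32_ag.Eq.V.Bs

/-!
# MP_d7db32_ag, Eq/V/Rs: restriction of the form to a part of the vertices

`j ≤ k`. Let `E : Fin (2 j + 1) ⊕ Fin (2 (k - j)) ≃ Fin (2 k + 1)` with `E (inl i) ∈ S`, `E (inr i) ∉ S`; `e i = E (inl i)`. `J` skew of size `2 (k - j)` with `det J ≠ 0` (for example `fromBlocks 0 1 (-1) 0` reindexed).
`X̂ = (fromBlocks X 0 0 J).submatrix E.symm E.symm`, `L' = L + M ((fromBlocks 0 0 0 J).submatrix ..)`, `M' X = M ((fromBlocks X 0 0 0).submatrix ..)`, so `L' + M' X = L + M X̂`.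
`rs_Fv`: `Fv X̂ = tr (adj (Y - Yᵀ) (Y + Yᵀ))` with `Y = fromBlocks X 0 0 J` (`adjugate_submatrix_equiv_self`, trace of a submatrix by an equivalence), `Y - Yᵀ = fromBlocks (X - Xᵀ) 0 0 (2 J)`, `Y + Yᵀ = fromBlocks (X + Xᵀ) 0 0 0`,
`adj (fromBlocks P 0 0 R) = fromBlocks (det R • adj P) 0 0 (det P • adj R)` (first for invertible `P`, `R`, or entrywise with `Matrix.adjugate_apply`, `Matrix.det_fromBlocks_zero₂₁` and `updateRow`; only the upper left block is needed), so `Fv X̂ = det (2 J) * Fv X`.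
The lift: `tos t s X̂ = (fromBlocks (tos (t ∘ e) s X) 0 0 J).submatrix ..` because `t = 1` outside `S` and `J` is skew. So the same `A`, `B` are a lift for `L'`, `M'`.
-/

set_option autoImplicit false

namespace PadDet.Eq

open Matrix

private theorem Rs_trb {α β : Type} [Fintype α] [Fintype β]
    (A : Matrix α α ℂ) (B : Matrix α β ℂ) (C : Matrix β α ℂ) (D : Matrix β β ℂ) :
    (Matrix.fromBlocks A B C D).trace = A.trace + D.trace := by
  unfold Matrix.trace
  rw [Fintype.sum_sum_type]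
  rfl

private theorem Rs_bsub {α β : Type} (A A' : Matrix α α ℂ) (B B' : Matrix α β ℂ)
    (C C' : Matrix β α ℂ) (D D' : Matrix β β ℂ) :
    Matrix.fromBlocks A B C D - Matrix.fromBlocks A' B' C' D' =
      Matrix.fromBlocks (A - A') (B - B') (C - C') (D - D') := by
  ext x y
  rcases x with x | x <;> rcases y with y | y <;> rfl

private theorem Rs_adj {α β : Type} [Fintype α] [DecidableEq α] [Fintype β] [DecidableEq β]
    (P Q : Matrix α α ℂ) (R : Matrix β β ℂ) :
    ((Matrix.fromBlocks P 0 0 R).adjugate * Matrix.fromBlocks Q 0 0 0).trace =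
      R.det * (P.adjugate * Q).trace := by
  have h1 : (Matrix.fromBlocks P 0 0 R).adjugate.toBlocks₁₁ = R.det • P.adjugate := by
    ext p q
    show (Matrix.fromBlocks P 0 0 R).adjugate (Sum.inl p) (Sum.inl q) = _
    rw [Matrix.adjugate_apply, Matrix.smul_apply, Matrix.adjugate_apply, smul_eq_mul]
    have h2 : (Matrix.fromBlocks P 0 0 R).updateRow (Sum.inl q) (Pi.single (Sum.inl p) 1) =
        Matrix.fromBlocks (P.updateRow q (Pi.single p 1)) 0 0 R := by
      ext x y
      rcases x with x | x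
      · by_cases hx : x = q
        · subst hx
          rw [Matrix.updateRow_self]
          rcases y with y | y
          · rw [Matrix.fromBlocks_apply₁₁, Matrix.updateRow_self]
            by_cases hy : y = p
            · subst hy
              rw [Pi.single_eq_same, Pi.single_eq_same]
            · rw [Pi.single_eq_of_ne hy,
                Pi.single_eq_of_ne (fun e => hy (Sum.inl.inj e))]
          · rw [Matrix.fromBlocks_apply₁₂, Pi.single_eq_of_ne (by simp)]
            rfl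
        · rw [Matrix.updateRow_ne (fun e => hx (Sum.inl.inj e))]
          rcases y with y | y
          · rw [Matrix.fromBlocks_apply₁₁, Matrix.fromBlocks_apply₁₁, Matrix.updateRow_ne hx]
          · rw [Matrix.fromBlocks_apply₁₂, Matrix.fromBlocks_apply₁₂]
      · rw [Matrix.updateRow_ne (by simp)]
        rcases y with y | y <;> rfl
    rw [h2, Matrix.det_fromBlocks_zero₂₁, mul_comm]
  rw [← Matrix.fromBlocks_toBlocks (Matrix.fromBlocks P 0 0 R).adjugate, h1,
    Matrix.fromBlocks_multiply, Rs_trb]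
  simp only [Matrix.mul_zero, add_zero, Matrix.trace_zero, Matrix.smul_mul, Matrix.trace_smul,
    smul_eq_mul]

private theorem Rs_tr {α β : Type} [Fintype α] [Fintype β] (e : α ≃ β) (A : Matrix β β ℂ) :
    (A.submatrix e e).trace = A.trace := by
  unfold Matrix.trace
  exact Equiv.sum_comp e (fun i => A i i)

private theorem Rs_add {α β : Type} (e : β → α) (A B : Matrix α α ℂ) :
    A.submatrix e e + B.submatrix e e = (A + B).submatrix e e := rfl

private theorem Rs_sub {α β : Type} (e : β → α) (A B : Matrix α α ℂ) :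
    A.submatrix e e - B.submatrix e e = (A - B).submatrix e e := rfl

private theorem Rs_smul {α β : Type} (e : β → α) (z : ℂ) (A : Matrix α α ℂ) :
    z • A.submatrix e e = (z • A).submatrix e e := rfl

private theorem Rs_tos {n : ℕ} (t : Fin n → ℂ) (s : ℂ) (X : Matrix (Fin n) (Fin n) ℂ)
    (i i' : Fin n) : tos t s X i i' =
      t i * (1 / 2 * (X i i' - X i' i) + s / 2 * (X i i' + X i' i)) * t i' := by
  unfold tos
  rw [Matrix.mul_diagonal, Matrix.diagonal_mul]
  rfl

theorem rst {k j m : ℕ} {c : ℂ} (hc : c ≠ 0) {L : Matrix (Fin m) (Fin m) ℂ}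
    {M : Matrix (Fin (2 * k + 1)) (Fin (2 * k + 1)) ℂ →ₗ[ℂ] Matrix (Fin m) (Fin m) ℂ}
    (hdet : ∀ X, (L + M X).det = c * Fv X) {S : Finset (Fin (2 * k + 1))}
    (hS : S.card = 2 * j + 1) {t : Fin (2 * k + 1) → ℂ} {s : ℂ} (h1 : ∀ i, i ∉ S → t i = 1)
    (hT : Eqv L M (tos t s)) :
    ∃ (e : Fin (2 * j + 1) ↪ Fin (2 * k + 1)) (c' : ℂ) (L' : Matrix (Fin m) (Fin m) ℂ)
      (M' : Matrix (Fin (2 * j + 1)) (Fin (2 * j + 1)) ℂ →ₗ[ℂ] Matrix (Fin m) (Fin m) ℂ),
      (∀ i, e i ∈ S) ∧ c' ≠ 0 ∧ (∀ X, (L' + M' X).det = c' * Fv X) ∧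
      Eqv L' M' (tos (fun i => t (e i)) s) := by
  classical
  have hjk : j ≤ k := by
    have h2 := Finset.card_le_univ S
    rw [hS, Fintype.card_fin] at h2
    omega
  have e1 : S ≃ Fin (2 * j + 1) := Finset.equivFinOfCardEq hS
  have e2 : {i : Fin (2 * k + 1) // ¬ i ∈ S} ≃ Fin (k - j) ⊕ Fin (k - j) := by
    apply Fintype.equivOfCardEq
    rw [Fintype.card_subtype_compl, Fintype.card_coe, hS, Fintype.card_fin, Fintype.card_sum,
      Fintype.card_fin]
    omega
  obtain ⟨E, hE1, hE2⟩ : ∃ E : Fin (2 * j + 1) ⊕ (Fin (k - j) ⊕ Fin (k - j)) ≃ Fin (2 * k + 1),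
      (∀ i, E (Sum.inl i) ∈ S) ∧ ∀ i, E (Sum.inr i) ∉ S := by
    refine ⟨(Equiv.sumCongr e1.symm e2.symm).trans (Equiv.sumCompl (· ∈ S)), ?_, ?_⟩
    · intro i
      exact (e1.symm i).2
    · intro i
      exact (e2.symm i).2
  obtain ⟨J, hJ⟩ : ∃ J : Matrix (Fin (k - j) ⊕ Fin (k - j)) (Fin (k - j) ⊕ Fin (k - j)) ℂ,
    J = Matrix.J (Fin (k - j)) ℂ := ⟨_, rfl⟩
  have hJt : Jᵀ = -J := by rw [hJ]; exact Matrix.J_transpose _ _
  have hJd : J.det ≠ 0 := by rw [hJ]; exact (Matrix.isUnit_det_J _ _).ne_zero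
  have hJe : ∀ p q, J q p = -J p q := fun p q => by
    have h2 := congrFun (congrFun hJt p) q
    exact h2
  -- the linear part
  obtain ⟨W, hW⟩ : ∃ W : Matrix (Fin (2 * j + 1)) (Fin (2 * j + 1)) ℂ →
      Matrix (Fin (2 * k + 1)) (Fin (2 * k + 1)) ℂ,
      W = fun X => (Matrix.fromBlocks X 0 0 J).submatrix E.symm E.symm := ⟨_, rfl⟩
  let W0 : Matrix (Fin (2 * j + 1)) (Fin (2 * j + 1)) ℂ →ₗ[ℂ]
      Matrix (Fin (2 * k + 1)) (Fin (2 * k + 1)) ℂ :=
    { toFun := fun X => (Matrix.fromBlocks X 0 0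
        (0 : Matrix (Fin (k - j) ⊕ Fin (k - j)) (Fin (k - j) ⊕ Fin (k - j)) ℂ)).submatrix
          E.symm E.symm
      map_add' := by
        intro X Y
        rw [Rs_add, Matrix.fromBlocks_add]
        simp only [add_zero]
      map_smul' := by
        intro z X
        rw [RingHom.id_apply, Rs_smul, Matrix.fromBlocks_smul]
        simp only [smul_zero] }
  obtain ⟨WJ, hWJ⟩ : ∃ WJ : Matrix (Fin (2 * k + 1)) (Fin (2 * k + 1)) ℂ,
    WJ = (Matrix.fromBlocks (0 : Matrix (Fin (2 * j + 1)) (Fin (2 * j + 1)) ℂ) 0 0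
      J).submatrix E.symm E.symm := ⟨_, rfl⟩
  have hWW : ∀ X, (L + M WJ) + (M ∘ₗ W0) X = L + M (W X) := by
    intro X
    have h2 : W X = WJ + W0 X := by
      rw [hW, hWJ]
      show (Matrix.fromBlocks X 0 0 J).submatrix E.symm E.symm = _ +
        (Matrix.fromBlocks X 0 0 0).submatrix E.symm E.symm
      rw [Rs_add, Matrix.fromBlocks_add]
      simp only [add_zero, zero_add]
    rw [h2, map_add, LinearMap.comp_apply, add_assoc]
  have hFv : ∀ X, Fv (W X) = ((2 : ℂ) • J).det * Fv X := by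
    intro X
    have h2 : W X - (W X)ᵀ = (Matrix.fromBlocks (X - Xᵀ) 0 0 ((2 : ℂ) • J)).submatrix
        E.symm E.symm := by
      rw [hW]
      show (Matrix.fromBlocks X 0 0 J).submatrix E.symm E.symm -
        ((Matrix.fromBlocks X 0 0 J).submatrix E.symm E.symm)ᵀ = _
      rw [Matrix.transpose_submatrix, Rs_sub, Matrix.fromBlocks_transpose,
        Rs_bsub, hJt]
      simp only [Matrix.transpose_zero, sub_zero, sub_neg_eq_add, two_smul]
    have h3 : W X + (W X)ᵀ = (Matrix.fromBlocks (X + Xᵀ) 0 0 0).submatrix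
        E.symm E.symm := by
      rw [hW]
      show (Matrix.fromBlocks X 0 0 J).submatrix E.symm E.symm +
        ((Matrix.fromBlocks X 0 0 J).submatrix E.symm E.symm)ᵀ = _
      rw [Matrix.transpose_submatrix, Rs_add, Matrix.fromBlocks_transpose,
        Matrix.fromBlocks_add, hJt]
      simp only [Matrix.transpose_zero, add_zero, add_neg_cancel]
    unfold Fv
    rw [h2, h3, Matrix.adjugate_submatrix_equiv_self, Matrix.submatrix_mul_equiv, Rs_tr, Rs_adj]
  have hd2 : ((2 : ℂ) • J).det ≠ 0 := by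
    rw [Matrix.det_smul]
    exact mul_ne_zero (pow_ne_zero _ two_ne_zero) hJd
  have hWe : ∀ X x y, W X (E x) (E y) = Matrix.fromBlocks X 0 0 J x y := by
    intro X x y
    rw [hW]
    show Matrix.fromBlocks X 0 0 J (E.symm (E x)) (E.symm (E y)) = _
    rw [Equiv.symm_apply_apply, Equiv.symm_apply_apply]
  have hts : ∀ X, tos t s (W X) = W (tos (fun i => t (E (Sum.inl i))) s X) := by
    intro X
    ext i i'
    obtain ⟨x, rfl⟩ := E.surjective i
    obtain ⟨y, rfl⟩ := E.surjective i'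
    rw [Rs_tos, hWe, hWe, hWe]
    rcases x with x | x <;> rcases y with y | y
    · rw [Matrix.fromBlocks_apply₁₁, Matrix.fromBlocks_apply₁₁, Matrix.fromBlocks_apply₁₁,
        Rs_tos]
    · rw [Matrix.fromBlocks_apply₁₂, Matrix.fromBlocks_apply₂₁, Matrix.fromBlocks_apply₁₂]
      simp
    · rw [Matrix.fromBlocks_apply₁₂, Matrix.fromBlocks_apply₂₁, Matrix.fromBlocks_apply₂₁]
      simp
    · rw [Matrix.fromBlocks_apply₂₂, Matrix.fromBlocks_apply₂₂, Matrix.fromBlocks_apply₂₂,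
        h1 _ (hE2 x), h1 _ (hE2 y), hJe x y]
      ring
  obtain ⟨A, B, hA, hB, hAB⟩ := hT
  refine ⟨⟨fun i => E (Sum.inl i), fun i i' h => Sum.inl.inj (E.injective h)⟩,
    c * ((2 : ℂ) • J).det, L + M WJ, M ∘ₗ W0, hE1, mul_ne_zero hc hd2, ?_, A, B, hA, hB, ?_⟩
  · intro X
    rw [hWW, hdet, hFv, mul_assoc]
  · intro X
    rw [hWW, hWW, hAB, hts]
    rfl

end PadDet.Eq
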