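import Pool.Agent.H.MP_d7db32_ag.Eq.V.Nm
import Pool.Agent.H.MP_d7db32_ag.Eq.V.Cg
import Pool.Agent.H.MP_d7db32_ag.Eq.V.Cw
import Pool.Agent.H.MP_d7db32_ag.Eq.V.Rs
import Pool.Agent.H.MP_d7db32_ag.Eq.R.Reg
import Pool.Agent.H.MP_d7db32_ag.Eq.F.Sqr

/-!
# MP_d7db32_ag, Eq/V/As: an exponential bound from one symmetry `act (g, s)`
-/

set_option autoImplicit false

namespace PadDet.Eq

open Matrix

private theorem AsV_core {k m : ℕ} {c : ℂ} (hc : c ≠ 0) (L : Matrix (Fin m) (Fin m) ℂ)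
    (M : Matrix (Fin (2 * k + 1)) (Fin (2 * k + 1)) ℂ →ₗ[ℂ] Matrix (Fin m) (Fin m) ℂ)
    (hdet : ∀ X, (L + M X).det = c * Fv X) {t : Fin (2 * k + 1) → ℂ} {s : ℂ} (ht : Dsc t s)
    (hT : Eqv L M (tos t s)) : 2 ^ k ≤ m := by
  obtain ⟨c₁, L₁, M₁, β, α, hG⟩ := exists_zd hc hdet hT
  have hadj := reg hG.c0 L₁ M₁ hG.det
  have hr := rank_of_adj hadj (by
    have h3 := hG.det 0
    have h4 : Fv (0 : Matrix (Fin (2 * k + 1)) (Fin (2 * k + 1)) ℂ) = 0 := by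
      unfold Fv
      rw [Matrix.transpose_zero, add_zero, mul_zero, Matrix.trace_zero]
    rwa [map_zero, add_zero, h4, mul_zero] at h3)
  rcases Nat.eq_zero_or_pos k with hk | hk
  · rw [hk, pow_zero]
    omega
  · obtain ⟨c', L', M', a₀, y, hG', h0, hy, hbal⟩ := nml hG ht.ne ht.sne hadj
    haveI : Nonempty (Fin m) := ⟨a₀⟩
    have H : ∀ (π : Equiv.Perm (Fin k)) (z : ℕ), z ≤ k →
        ∃ (a : Fin m) (f : Fin k → ℕ) (ε : ℕ), (∀ i, f i ≤ 2) ∧ ε ≤ 1 ∧ (∃ i, f i ≠ 2) ∧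
          (Finset.univ.filter fun i => f i = 0).card = z ∧ β a = β a₀ * wtq t s π f ε :=
      fun π z hz => chw ht hG' h0 hy hbal hk π hz
    choose! Φ f ε hf hε hne hcard hβ using H
    refine cnw Φ f (fun π π' z z' hz hz' hΦ => ?_) hcard
    have h6 := hβ π z hz
    rw [hΦ, hβ π' z' hz'] at h6
    exact wq_inj' ht (hf π z hz) (hf π' z' hz') (hε π z hz) (hε π' z' hz')
      (mul_left_cancel₀ (hG'.nβ a₀) h6).symm (hne π z hz) (hne π' z' hz')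

private theorem AsV_app {n : ℕ} (t : Fin n → ℂ) (s : ℂ) (X : Matrix (Fin n) (Fin n) ℂ)
    (i j : Fin n) : tos t s X i j =
      t i * (1 / 2 * (X i j - X j i) + s / 2 * (X i j + X j i)) * t j := by
  unfold tos
  rw [Matrix.mul_diagonal, Matrix.diagonal_mul]
  simp only [Matrix.add_apply, Matrix.smul_apply, Matrix.sub_apply, Matrix.transpose_apply,
    smul_eq_mul]

private theorem AsV_sq {n : ℕ} (t : Fin n → ℂ) (s : ℂ) (X : Matrix (Fin n) (Fin n) ℂ) :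
    tos t s (tos t s X) = tos (fun i => t i ^ 2) (s ^ 2) X := by
  ext i j
  rw [AsV_app, AsV_app, AsV_app, AsV_app]
  ring

/-- Change of coordinates. -/
private noncomputable def AsV_cnj {n : ℕ} (P : Matrix (Fin n) (Fin n) ℂ) :
    Matrix (Fin n) (Fin n) ℂ →ₗ[ℂ] Matrix (Fin n) (Fin n) ℂ where
  toFun X := P * X * Pᵀ
  map_add' X Y := by rw [Matrix.mul_add, Matrix.add_mul]
  map_smul' z X := by rw [Matrix.mul_smul, Matrix.smul_mul, RingHom.id_apply]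

private theorem AsV_act {n : ℕ} {g P : GL (Fin n) ℂ} {s : ℂˣ} {t : Fin n → ℂ}
    (hgP : (g : Matrix (Fin n) (Fin n) ℂ) * (P : Matrix (Fin n) (Fin n) ℂ) =
      (P : Matrix (Fin n) (Fin n) ℂ) * Matrix.diagonal t) (X : Matrix (Fin n) (Fin n) ℂ) :
    act (g, s) (AsV_cnj (P : Matrix (Fin n) (Fin n) ℂ) X) =
      AsV_cnj (P : Matrix (Fin n) (Fin n) ℂ) (tos t (s : ℂ) X) := by
  obtain ⟨Z, hZ⟩ : ∃ Z, Z = (1 / 2 : ℂ) • (X - Xᵀ) + ((s : ℂ) / 2) • (X + Xᵀ) := ⟨_, rfl⟩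
  obtain ⟨Q, hQ⟩ : ∃ Q : Matrix (Fin n) (Fin n) ℂ, Q = P := ⟨_, rfl⟩
  obtain ⟨G, hG⟩ : ∃ G : Matrix (Fin n) (Fin n) ℂ, G = g := ⟨_, rfl⟩
  rw [← hQ, ← hG] at hgP
  rw [← hQ]
  have e1 : (1 / 2 : ℂ) • (Q * X * Qᵀ - (Q * X * Qᵀ)ᵀ) +
      ((s : ℂ) / 2) • (Q * X * Qᵀ + (Q * X * Qᵀ)ᵀ) = Q * Z * Qᵀ := by
    rw [hZ, Matrix.transpose_mul, Matrix.transpose_mul, Matrix.transpose_transpose,
      ← Matrix.mul_assoc Q Xᵀ]
    simp only [Matrix.mul_add, Matrix.add_mul, Matrix.mul_sub, Matrix.sub_mul, Matrix.mul_smul,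
      Matrix.smul_mul, smul_sub, smul_add]
  have e2 : act (g, s) (AsV_cnj Q X) = G * (Q * Z * Qᵀ) * Gᵀ := by
    rw [← e1, hG]
    rfl
  have e3 : AsV_cnj Q (tos t (s : ℂ) X) =
      Q * (Matrix.diagonal t * Z * Matrix.diagonal t) * Qᵀ := by
    rw [hZ]
    rfl
  have e4 : Qᵀ * Gᵀ = Matrix.diagonal t * Qᵀ := by
    rw [← Matrix.transpose_mul, hgP, Matrix.transpose_mul, Matrix.diagonal_transpose]
  rw [e2, e3]
  calc G * (Q * Z * Qᵀ) * Gᵀ = (G * Q) * Z * (Qᵀ * Gᵀ) := by simp only [Matrix.mul_assoc]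
    _ = (Q * Matrix.diagonal t) * Z * (Matrix.diagonal t * Qᵀ) := by rw [hgP, e4]
    _ = _ := by simp only [Matrix.mul_assoc]

private theorem AsV_dsc {n n' : ℕ} {S : Finset (Fin n)} {t : Fin n → ℂ} {s : ℂ}
    (ht : ∀ i, t i ≠ 0) (hs : s ≠ 0)
    (hD : ∀ (w : Fin n → ℤ) (e : ℤ), (∀ i, i ∉ S → w i = 0) → (∀ i, |w i| ≤ 2) → |e| ≤ 1 →
      s ^ (2 * e) * ∏ i, t i ^ (2 * w i) = 1 → ∀ i ∈ S, ∀ i' ∈ S, w i = w i')
    (φ : Fin n' ↪ Fin n) (hφ : ∀ i, φ i ∈ S) : Dsc (fun i => t (φ i) ^ 2) (s ^ 2) := by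
  refine ⟨fun i => pow_ne_zero 2 (ht _), pow_ne_zero 2 hs, fun w e hw he h i i' => ?_⟩
  obtain ⟨v, hv⟩ : ∃ v : Fin n → ℤ, v = Function.extend φ w 0 := ⟨_, rfl⟩
  have hv1 : ∀ i, v (φ i) = w i := fun i => by rw [hv, φ.injective.extend_apply]
  have hv0 : ∀ l, (∀ i, φ i ≠ l) → v l = 0 := by
    intro l hl
    rw [hv, Function.extend_apply' _ _ _ (by rintro ⟨i, hi⟩; exact hl i hi)]
    rfl
  have h1 := hD v e (fun l hl => hv0 l fun i hi => hl (hi ▸ hφ i)) (fun l => by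
    by_cases hl : ∃ i, φ i = l
    · obtain ⟨i, rfl⟩ := hl
      rw [hv1]
      exact hw i
    · push Not at hl
      rw [hv0 l hl, abs_zero]
      exact zero_le_two) he (by
    have e1 : ∏ l, t l ^ (2 * v l) = ∏ i, t (φ i) ^ (2 * w i) := by
      have e2 : ∏ i, t (φ i) ^ (2 * w i) =
          ∏ l ∈ Finset.univ.map φ, t l ^ (2 * v l) := by
        rw [Finset.prod_map]
        exact Finset.prod_congr rfl fun i _ => by rw [hv1]
      rw [e2]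
      refine (Finset.prod_subset (Finset.subset_univ _) fun l _ hl => ?_).symm
      rw [hv0 l (fun i hi => hl (Finset.mem_map.2 ⟨i, Finset.mem_univ i, hi⟩)), mul_zero,
        zpow_zero]
    rw [e1, ← h]
    congr 1
    · rw [_root_.zpow_mul]
      rfl
    · refine Finset.prod_congr rfl fun i _ => ?_
      rw [_root_.zpow_mul]
      rfl) (φ i) (hφ i) (φ i') (hφ i')
  rwa [hv1, hv1] at h1

theorem low_gen (k m : ℕ) {c : ℂ} (hc : c ≠ 0) (L : Matrix (Fin m) (Fin m) ℂ)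
    (M : Matrix (Fin (2 * k + 1)) (Fin (2 * k + 1)) ℂ →ₗ[ℂ] Matrix (Fin m) (Fin m) ℂ)
    (hdet : ∀ X, (L + M X).det = c * Fv X) {j : ℕ} {S : Finset (Fin (2 * k + 1))}
    (hS : S.card = 2 * j + 1) {t : Fin (2 * k + 1) → ℂ} (h1 : ∀ i, i ∉ S → t i ^ 2 = 1)
    {g P : GL (Fin (2 * k + 1)) ℂ} {s : ℂˣ}
    (hgP : (g : Matrix (Fin (2 * k + 1)) (Fin (2 * k + 1)) ℂ) *
      (P : Matrix (Fin (2 * k + 1)) (Fin (2 * k + 1)) ℂ) =
      (P : Matrix (Fin (2 * k + 1)) (Fin (2 * k + 1)) ℂ) * Matrix.diagonal t)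
    (hD : ∀ (w : Fin (2 * k + 1) → ℤ) (e : ℤ), (∀ i, i ∉ S → w i = 0) → (∀ i, |w i| ≤ 2) →
      |e| ≤ 1 → (s : ℂ) ^ (2 * e) * ∏ i, t i ^ (2 * w i) = 1 → ∀ i ∈ S, ∀ i' ∈ S, w i = w i')
    (hT : Eqt L M (act (g, s))) : 2 ^ j ≤ m := by
  have hP : (P : Matrix (Fin (2 * k + 1)) (Fin (2 * k + 1)) ℂ).det ≠ 0 := gl_det P
  have ht : ∀ i, t i ≠ 0 := by
    have h2 := congrArg Matrix.det hgP
    rw [Matrix.det_mul, Matrix.det_mul, Matrix.det_diagonal] at h2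
    have h3 : (P : Matrix (Fin (2 * k + 1)) (Fin (2 * k + 1)) ℂ).det * ∏ i, t i ≠ 0 := by
      rw [← h2]
      exact mul_ne_zero (gl_det g) hP
    intro i hi
    exact h3 (by rw [Finset.prod_eq_zero (Finset.mem_univ i) hi, mul_zero])
  obtain ⟨M₁, hM₁⟩ : ∃ M₁ : Matrix (Fin (2 * k + 1)) (Fin (2 * k + 1)) ℂ →ₗ[ℂ]
      Matrix (Fin m) (Fin m) ℂ, M₁ = M ∘ₗ AsV_cnj
        (P : Matrix (Fin (2 * k + 1)) (Fin (2 * k + 1)) ℂ) := ⟨_, rfl⟩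
  have hM₁' : ∀ X, M₁ X = M (AsV_cnj (P : Matrix (Fin (2 * k + 1)) (Fin (2 * k + 1)) ℂ) X) :=
    fun X => by rw [hM₁]; rfl
  have hdet₁ : ∀ X, (L + M₁ X).det =
      (c * (P : Matrix (Fin (2 * k + 1)) (Fin (2 * k + 1)) ℂ).det ^ 2) * Fv X := by
    intro X
    have e1 : AsV_cnj (P : Matrix (Fin (2 * k + 1)) (Fin (2 * k + 1)) ℂ) X = act (P, 1) X := by
      have e : ((1 / 2 : ℂ) • (X - Xᵀ) + (((1 : ℂˣ) : ℂ) / 2) • (X + Xᵀ)) = X := by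
        rw [Units.val_one]
        module
      unfold act
      simp only [e]
      rfl
    rw [hM₁', hdet, e1, Fv_act, Units.val_one]
    ring
  have hT₁ : Eqt L M₁ (tos t (s : ℂ)) := by
    obtain ⟨A, B, h⟩ := hT
    refine ⟨A, B, ?_⟩
    rcases h with h | h
    · left
      intro X
      rw [hM₁', hM₁', ← AsV_act hgP]
      exact h _
    · right
      intro X
      rw [hM₁', hM₁', ← AsV_act hgP]
      exact h _
  have hT₂ := eqt_sq hT₁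
  have e2 : (fun X : Matrix (Fin (2 * k + 1)) (Fin (2 * k + 1)) ℂ =>
      tos t (s : ℂ) (tos t (s : ℂ) X)) = tos (fun i => t i ^ 2) ((s : ℂ) ^ 2) := by
    funext X
    exact AsV_sq t s X
  rw [e2] at hT₂
  obtain ⟨φ, c', L', M', hφ, hc', hdet', hT'⟩ := rst
    (mul_ne_zero hc (pow_ne_zero 2 hP)) hdet₁ hS (t := fun i => t i ^ 2)
    h1 hT₂
  exact AsV_core hc' L' M' hdet' (AsV_dsc ht s.ne_zero hD φ hφ) hT'

end PadDet.Eq
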