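import Pool.Agent.H.MP_d7db32_ag.Eq.U.Bs

/-!
# MP_d7db32_ag, Eq/V/Bs: one symmetry of the form, general case

`tos t s`: `A ↦ t A t` for skew `A`, `Y ↦ s t Y t` for symmetric `Y`.
`Dsc t s`: `s ^ e * ∏ i, t i ^ w i = 1` with `|w i| ≤ 2`, `|e| ≤ 1` only if `w` is constant.
`Zd`: a pencil with weights `β` of the columns and `α` of the rows. `wtq`: products along a matching.
-/

set_option autoImplicit false

namespace PadDet.Eq

open Matrix

variable {n m : ℕ}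

/-- `A ↦ t A t` for skew `A`, `Y ↦ s t Y t` for symmetric `Y`. -/
noncomputable def tos (t : Fin n → ℂ) (s : ℂ) (X : Matrix (Fin n) (Fin n) ℂ) :
    Matrix (Fin n) (Fin n) ℂ :=
  Matrix.diagonal t * ((1 / 2 : ℂ) • (X - Xᵀ) + (s / 2) • (X + Xᵀ)) * Matrix.diagonal t

/-- No relations except for constant exponents of `t`. -/
structure Dsc (t : Fin n → ℂ) (s : ℂ) : Prop where
  ne : ∀ i, t i ≠ 0
  sne : s ≠ 0
  ind : ∀ (w : Fin n → ℤ) (e : ℤ), (∀ i, |w i| ≤ 2) → |e| ≤ 1 → s ^ e * ∏ i, t i ^ w i = 1 →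
    ∀ i i', w i = w i'

/-- Weights of the columns and the rows. -/
structure Zd (t : Fin n → ℂ) (s : ℂ) (m : ℕ) (c : ℂ) (L : Matrix (Fin m) (Fin m) ℂ)
    (M : Matrix (Fin n) (Fin n) ℂ →ₗ[ℂ] Matrix (Fin m) (Fin m) ℂ)
    (β α : Fin m → ℂ) : Prop where
  c0 : c ≠ 0
  det : ∀ X, (L + M X).det = c * Fv X
  gL : ∀ b a, L b a ≠ 0 → α b = β a
  gE : ∀ b a i j, M (Matrix.single i j 1 - Matrix.single j i 1) b a ≠ 0 →
    α b = t i * t j * β a
  gD : ∀ b a i, M (Matrix.single i i 1) b a ≠ 0 → α b = s * t i ^ 2 * β a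
  nβ : ∀ a, β a ≠ 0
  nα : ∀ b, α b ≠ 0

/-- The product of the weights along the matching `π`, `f i` times the edge `i`, `ε` times the
loop. -/
noncomputable def wtq {k : ℕ} (t : Fin (2 * k + 1) → ℂ) (s : ℂ) (π : Equiv.Perm (Fin k))
    (f : Fin k → ℕ) (ε : ℕ) : ℂ :=
  (∏ i, (t (lf i) * t (rt (π i))) ^ f i) * (s * t (ls k) ^ 2) ^ ε

private theorem Bs_diag (t : Fin n → ℂ) (i j : Fin n) :
    Matrix.diagonal t * Matrix.single i j (1 : ℂ) * Matrix.diagonal t =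
      (t i * t j) • Matrix.single i j (1 : ℂ) := by
  ext a b
  rw [Matrix.mul_diagonal, Matrix.diagonal_mul, Matrix.smul_apply, smul_eq_mul,
    Matrix.single_apply]
  by_cases h : i = a ∧ j = b
  · obtain ⟨rfl, rfl⟩ := h
    rw [if_pos ⟨rfl, rfl⟩]
    ring
  · rw [if_neg h]
    ring

theorem tos_zero (t : Fin n → ℂ) (s : ℂ) : tos t s 0 = 0 := by
  unfold tos
  simp

theorem tos_edge (t : Fin n → ℂ) (s : ℂ) (i j : Fin n) :
    tos t s (Matrix.single i j 1 - Matrix.single j i 1) =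
      (t i * t j) • (Matrix.single i j (1 : ℂ) - Matrix.single j i 1) := by
  have e : (1 / 2 : ℂ) • ((Matrix.single i j (1 : ℂ) - Matrix.single j i 1) -
        (Matrix.single i j (1 : ℂ) - Matrix.single j i 1)ᵀ) +
      (s / 2) • ((Matrix.single i j (1 : ℂ) - Matrix.single j i 1) +
        (Matrix.single i j (1 : ℂ) - Matrix.single j i 1)ᵀ) =
      Matrix.single i j (1 : ℂ) - Matrix.single j i 1 := by
    rw [Matrix.transpose_sub, Matrix.transpose_single, Matrix.transpose_single]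
    module
  unfold tos
  rw [e, Matrix.mul_sub, Matrix.sub_mul, Bs_diag, Bs_diag, smul_sub, mul_comm (t j)]

theorem tos_loop (t : Fin n → ℂ) (s : ℂ) (i : Fin n) :
    tos t s (Matrix.single i i 1) = (s * t i ^ 2) • (Matrix.single i i (1 : ℂ)) := by
  have e : (1 / 2 : ℂ) • (Matrix.single i i (1 : ℂ) - (Matrix.single i i (1 : ℂ))ᵀ) +
      (s / 2) • (Matrix.single i i (1 : ℂ) + (Matrix.single i i (1 : ℂ))ᵀ) =
      s • Matrix.single i i (1 : ℂ) := by
    rw [Matrix.transpose_single]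
    module
  unfold tos
  rw [e, Matrix.mul_smul, Matrix.smul_mul, Bs_diag, smul_smul]
  congr 1
  ring

private theorem Bs_ev {L : Matrix (Fin m) (Fin m) ℂ}
    {M : Matrix (Fin n) (Fin n) ℂ →ₗ[ℂ] Matrix (Fin m) (Fin m) ℂ}
    {g : Matrix (Fin n) (Fin n) ℂ → Matrix (Fin n) (Fin n) ℂ} {D C : Matrix (Fin m) (Fin m) ℂ}
    (h : Mor L M g D C) (h0 : D * L = L * C) {z : ℂ} {X : Matrix (Fin n) (Fin n) ℂ}
    (hX : g X = z • X) : D * M X = z • (M X * C) := by
  have h1 := h X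
  rw [hX, Matrix.mul_add, Matrix.add_mul, h0, map_smul, Matrix.smul_mul] at h1
  exact add_left_cancel h1

private theorem Bs_ne {D T T' : Matrix (Fin m) (Fin m) ℂ} {α : Fin m → ℂ} (hD : D.det ≠ 0)
    (ED : Eig D T T' α) (b : Fin m) : α b ≠ 0 := by
  intro h0
  obtain ⟨v, hv, h1⟩ := eig_ev ED b
  rw [h0, zero_smul] at h1
  exact hv (Matrix.eq_zero_of_mulVec_eq_zero hD h1)

/-- The weights are eigenvalues of the lift. -/
theorem exists_zd {c : ℂ} {L : Matrix (Fin m) (Fin m) ℂ}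
    {M : Matrix (Fin n) (Fin n) ℂ →ₗ[ℂ] Matrix (Fin m) (Fin m) ℂ}
    {t : Fin n → ℂ} {s : ℂ} (hc : c ≠ 0) (hdet : ∀ X, (L + M X).det = c * Fv X)
    (hT : Eqv L M (tos t s)) :
    ∃ (c' : ℂ) (L' : Matrix (Fin m) (Fin m) ℂ)
      (M' : Matrix (Fin n) (Fin n) ℂ →ₗ[ℂ] Matrix (Fin m) (Fin m) ℂ)
      (β α : Fin m → ℂ), Zd t s m c' L' M' β α := by
  obtain ⟨D, C, hD, hC, hDC⟩ := hT
  have h0 : D * L = L * C := by
    have h1 := hDC 0
    rwa [tos_zero, map_zero, add_zero] at h1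
  obtain ⟨S, S', β, EC⟩ := exists_eig C
  obtain ⟨T, T', α, ED⟩ := exists_eig D
  refine ⟨T'.det * c * S.det, T' * L * S, lcg T' S M, β, α,
    ⟨?_, fun X => ?_, ?_, ?_, ?_, ?_, ?_⟩⟩
  · refine mul_ne_zero (mul_ne_zero ?_ hc) ?_
    · have h2 := congrArg Matrix.det ED.inv
      rw [Matrix.det_mul, Matrix.det_one] at h2
      exact left_ne_zero_of_mul_eq_one h2
    · have h2 := congrArg Matrix.det EC.inv'
      rw [Matrix.det_mul, Matrix.det_one] at h2
      exact left_ne_zero_of_mul_eq_one h2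
  · have e : T' * L * S + lcg T' S M X = T' * (L + M X) * S := by
      change T' * L * S + T' * M X * S = T' * (L + M X) * S
      rw [Matrix.mul_add, Matrix.add_mul]
    rw [e, Matrix.det_mul, Matrix.det_mul, hdet]
    ring
  · intro b a hba
    have h2 : α b = 1 * β a := eig_mor (z := 1) (by rw [one_smul]; exact h0) EC ED b a hba
    rwa [one_mul] at h2
  · intro b a i j hba
    exact eig_mor (Bs_ev hDC h0 (tos_edge t s i j)) EC ED b a hba
  · intro b a i hba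
    exact eig_mor (Bs_ev hDC h0 (tos_loop t s i)) EC ED b a hba
  · exact Bs_ne hC EC
  · exact Bs_ne hD ED

end PadDet.Eq
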