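import Pool.Agent.H.MP_d7db32_ag.Eq.U.Tm
import Pool.Agent.H.MP_d7db32_ag.Eq.U.Mv
import Pool.Agent.H.MP_d7db32_ag.Eq.V.Tr
import Pool.Agent.H.MP_d7db32_ag.Eq.V.Wt

/-!
# MP_d7db32_ag, Eq/V/Ch: a column whose weight has a given number of zeros

(Compare U/Ch, the same with a part of the vertices; there the trail begins at `x`, here with the arrow `a₀`.)
`P e = M (mvE π e)`: `det (L + ∑ e, x e • P e) = c * Fv (∑ e, x e • mvE π e) = c C₀ ∏ e, x e ^ mvd e` (`mv`), so `trm` gives `τ` and `χ : Fin m → Option (Fin k ⊕ Unit)`.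
`A = {a | χ a ≠ none}`; `g a = t (lf i) * t (rt (π i))` if `χ a = some (inl i)`, `g a = s * t (ls k) ^ 2` if `χ a = some (inr ())`. For `a ∈ A`: `α (τ a) = g a * β a` (`gE`, `gD`). For `a ∉ A`: `α (τ a) = β a` (`gL`). `a₀ ∈ A` because the column `a₀` of `L` is zero.
`hbal` gives the balance for `A` with the heads `fun a => α (τ a)` (the number of the `b` with `α b = ω` is the number of the `a` with `α (τ a) = ω`; the columns `a ∉ A` contribute the same on both sides).
For `U ⊆ A`: `f_U i = card {a ∈ U | χ a = some (inl i)} ≤ 2`, `ε_U = card {a ∈ U | χ a = some (inr ())} ≤ 1` and `∏ a ∈ U, g a = wtq t s π f_U ε_U` (`Finset.prod_fiberwise`).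
`trv` with `Q U := z ≤ card {i : Fin k | f_U i = 0}` (and `α := fun a => α (τ a)`): `Q {a₀}` because `z ≤ k - 1` and `f_{a₀}` is not zero at one place at most. `hQ`: if `a₀ ∈ U`, `Q U` and `y = β a₀ * ∏ g` then `wtq t s π f_U ε_U = s * (∏ t) ^ 2`
(`hy`, `β a₀ ≠ 0`) and `f_U i = 0` for some `i` (`1 ≤ z`), so `f_U = 0`, `ε_U = 0` (`wq_full`), but `χ a₀ ≠ none`, contradiction.
The result: `U`, `a` with `β a = β a₀ * wtq t s π f_U ε_U`, `z ≤ zeros (f_U)`, `zeros (f_{insert a U}) < z`, and `f_{insert a U}` differs from `f_U` at one place at most, so `zeros (f_U) = z`.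
-/

set_option autoImplicit false

namespace PadDet.Eq

open Matrix

/-- The factor of a column. -/
private noncomputable def Ch_g {k : ℕ} (t : Fin (2 * k + 1) → ℂ) (s : ℂ)
    (π : Equiv.Perm (Fin k)) : Option (Fin k ⊕ Unit) → ℂ
  | none => 1
  | some (Sum.inl i) => t (lf i) * t (rt (π i))
  | some (Sum.inr _) => s * t (ls k) ^ 2

private theorem Ch_prod1 {k : ℕ} (t : Fin (2 * k + 1) → ℂ) (s : ℂ)
    (π : Equiv.Perm (Fin k)) (o : Option (Fin k ⊕ Unit)) :
    Ch_g t s π o = (∏ i, (t (lf i) * t (rt (π i))) ^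
      (if o = some (Sum.inl i) then 1 else 0)) *
        (s * t (ls k) ^ 2) ^ (if o = some (Sum.inr ()) then 1 else 0) := by
  classical
  rcases o with _ | i | u
  · simp [Ch_g]
  · have h1 : ¬ (some (Sum.inl i : Fin k ⊕ Unit) = some (Sum.inr ())) := by simp
    rw [if_neg h1, pow_zero, mul_one]
    show t (lf i) * t (rt (π i)) = _
    rw [Finset.prod_eq_single i]
    · rw [if_pos rfl, pow_one]
    · intro b _ hb
      rw [if_neg, pow_zero]
      intro h2
      exact hb (Sum.inl_injective (Option.some_injective _ h2)).symm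
    · intro h2
      exact absurd (Finset.mem_univ _) h2
  · have h1 : (some (Sum.inr u : Fin k ⊕ Unit) = some (Sum.inr ())) := rfl
    rw [if_pos h1, pow_one]
    show s * t (ls k) ^ 2 = _
    have h2 : ∏ i, (t (lf i) * t (rt (π i))) ^
      (if some (Sum.inr u : Fin k ⊕ Unit) = some (Sum.inl i) then 1 else 0) = 1 := by
      refine Finset.prod_eq_one fun i' _ => ?_
      rw [if_neg (by simp), pow_zero]
    rw [h2, one_mul]

/-- The numbers of the columns of `U` at the edges. -/
private def Ch_f {k m : ℕ} (χ : Fin m → Option (Fin k ⊕ Unit))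
    (U : Finset (Fin m)) (i : Fin k) : ℕ :=
  (U.filter fun a => χ a = some (Sum.inl i)).card

private def Ch_e {k m : ℕ} (χ : Fin m → Option (Fin k ⊕ Unit)) (U : Finset (Fin m)) : ℕ :=
  (U.filter fun a => χ a = some (Sum.inr ())).card

private theorem Ch_prod {k m : ℕ} (t : Fin (2 * k + 1) → ℂ) (s : ℂ)
    (π : Equiv.Perm (Fin k)) (χ : Fin m → Option (Fin k ⊕ Unit))
    (U : Finset (Fin m)) :
    ∏ a ∈ U, Ch_g t s π (χ a) = wtq t s π (Ch_f χ U) (Ch_e χ U) := by
  simp only [Ch_prod1 t s π]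
  rw [Finset.prod_mul_distrib, Finset.prod_comm]
  unfold wtq
  congr 1
  · refine Finset.prod_congr rfl fun i _ => ?_
    rw [Finset.prod_pow_eq_pow_sum, ← Finset.card_filter]
    rfl
  · rw [Finset.prod_pow_eq_pow_sum, ← Finset.card_filter]
    rfl

private theorem Ch_ins {k m : ℕ} (χ : Fin m → Option (Fin k ⊕ Unit))
    (U : Finset (Fin m)) (a : Fin m) :
    (Finset.univ.filter fun i => Ch_f χ U i = 0).card ≤
      (Finset.univ.filter fun i => Ch_f χ (insert a U) i = 0).card + 1 := by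
  classical
  have h1 : (Finset.univ.filter fun i => Ch_f χ U i = 0) ⊆
      (Finset.univ.filter fun i => Ch_f χ (insert a U) i = 0) ∪
        (Finset.univ.filter fun i : Fin k => χ a = some (Sum.inl i)) := by
    intro i hi
    rw [Finset.mem_filter] at hi
    rw [Finset.mem_union, Finset.mem_filter, Finset.mem_filter]
    by_cases h2 : χ a = some (Sum.inl i)
    · exact Or.inr ⟨Finset.mem_univ _, h2⟩
    · refine Or.inl ⟨Finset.mem_univ _, ?_⟩
      unfold Ch_f
      rw [Finset.filter_insert, if_neg h2]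
      exact hi.2
  refine (Finset.card_le_card h1).trans ((Finset.card_union_le _ _).trans ?_)
  refine Nat.add_le_add_left ?_ _
  rw [Finset.card_le_one]
  intro i hi i' hi'
  rw [Finset.mem_filter] at hi hi'
  have h3 := hi.2.symm.trans hi'.2
  exact Sum.inl_injective (Option.some_injective _ h3)

private theorem Ch_bal {m : ℕ} {β α : Fin m → ℂ} {x y : ℂ}
    (hbal : ∀ ω : ℂ, (Finset.univ.filter fun a => β a = ω).card + (if ω = y then 1 else 0) =
      (Finset.univ.filter fun b => α b = ω).card + (if ω = x then 1 else 0))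
    (τ : Equiv.Perm (Fin m)) (A : Finset (Fin m)) (hA : ∀ a, a ∉ A → α (τ a) = β a) (ω : ℂ) :
    (A.filter fun a => β a = ω).card + (if ω = y then 1 else 0) =
      (A.filter fun a => α (τ a) = ω).card + (if ω = x then 1 else 0) := by
  have h1 := hbal ω
  have h2 : (Finset.univ.filter fun b => α b = ω).card =
      (Finset.univ.filter fun a => α (τ a) = ω).card := by
    rw [Finset.card_filter, Finset.card_filter]
    exact (Equiv.sum_comp τ fun b => if α b = ω then 1 else 0).symm
  rw [h2] at h1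
  rw [Finset.card_filter, Finset.card_filter] at h1 ⊢
  have h3 := Finset.sum_add_sum_compl A fun a => if β a = ω then 1 else 0
  have h4 := Finset.sum_add_sum_compl A fun a => if α (τ a) = ω then 1 else 0
  have h5 : (∑ a ∈ Aᶜ, if α (τ a) = ω then 1 else 0) = ∑ a ∈ Aᶜ, if β a = ω then 1 else 0 :=
    Finset.sum_congr rfl fun a ha => by rw [hA a (Finset.mem_compl.1 ha)]
  omega

theorem chv {k m : ℕ} {t : Fin (2 * k + 1) → ℂ} {s : ℂ} (ht : Dsc t s) {c : ℂ}
    {L : Matrix (Fin m) (Fin m) ℂ}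
    {M : Matrix (Fin (2 * k + 1)) (Fin (2 * k + 1)) ℂ →ₗ[ℂ] Matrix (Fin m) (Fin m) ℂ}
    {β α : Fin m → ℂ} (hG : Zd t s m c L M β α) {a₀ : Fin m} (h0 : ∀ b, L b a₀ = 0) {y : ℂ}
    (hy : y = s * (∏ i, t i) ^ 2 * β a₀)
    (hbal : ∀ ω : ℂ, (Finset.univ.filter fun a => β a = ω).card + (if ω = y then 1 else 0) =
      (Finset.univ.filter fun b => α b = ω).card + (if ω = β a₀ then 1 else 0))
    (π : Equiv.Perm (Fin k)) {z : ℕ} (h1 : 1 ≤ z) (h2 : z + 1 ≤ k) :
    ∃ (a : Fin m) (f : Fin k → ℕ) (ε : ℕ), (∀ i, f i ≤ 2) ∧ ε ≤ 1 ∧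
      (Finset.univ.filter fun i => f i = 0).card = z ∧ β a = β a₀ * wtq t s π f ε := by
  classical
  obtain ⟨C₀, hC₀, hmv⟩ := mv π
  obtain ⟨τ, χ, hn, hs, hcard⟩ := trm L (fun e => M (mvE π e))
    (mul_ne_zero hG.c0 hC₀) mvd (by
      intro v hv
      have e1 : ∑ e, v e • M (mvE π e) = M (∑ e, v e • mvE π e) := by
        rw [map_sum]
        exact Finset.sum_congr rfl fun e _ => (map_smul M _ _).symm
      rw [e1, hG.det, hmv v hv, mul_assoc])
  have hnone : ∀ a, χ a = none → α (τ a) = β a := fun a hχ => hG.gL _ _ (hn a hχ)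
  have hall : ∀ a, α (τ a) = Ch_g t s π (χ a) * β a := by
    intro a
    rcases hχ : χ a with _ | i | u
    · rw [hnone a hχ]
      show β a = 1 * β a
      rw [one_mul]
    · have h3 : M (Matrix.single (lf i) (rt (π i)) 1 -
          Matrix.single (rt (π i)) (lf i) 1) (τ a) a ≠ 0 := hs a _ hχ
      exact hG.gE _ _ _ _ h3
    · have h3 : M (Matrix.single (ls k) (ls k) 1) (τ a) a ≠ 0 := hs a _ hχ
      exact hG.gD _ _ _ h3
  have hF : ∀ U i, Ch_f χ U i ≤ 2 := by
    intro U i
    have h3 : (Finset.univ.filter fun a => χ a = some (Sum.inl i)).card = 2 :=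
      hcard (Sum.inl i)
    rw [← h3]
    exact Finset.card_le_card (Finset.filter_subset_filter _ (Finset.subset_univ U))
  have hE : ∀ U, Ch_e χ U ≤ 1 := by
    intro U
    have h3 : (Finset.univ.filter fun a => χ a = some (Sum.inr ())).card = 1 :=
      hcard (Sum.inr ())
    rw [← h3]
    exact Finset.card_le_card (Finset.filter_subset_filter _ (Finset.subset_univ U))
  obtain ⟨A, hA⟩ : ∃ A : Finset (Fin m), ∀ a, a ∈ A ↔ χ a ≠ none :=
    ⟨Finset.univ.filter fun a => χ a ≠ none, fun a => by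
      rw [Finset.mem_filter]
      exact ⟨fun h => h.2, fun h => ⟨Finset.mem_univ _, h⟩⟩⟩
  have hA0 : χ a₀ ≠ none := fun h3 => hn a₀ h3 (h0 _)
  obtain ⟨U, -, hU0, a, -, -, hQ1, hQ2, hβ⟩ := trv (A := A) (β := β)
    (α := fun a => α (τ a)) (g := fun a => Ch_g t s π (χ a)) (y := y)
    (fun a _ => hall a) (a₀ := a₀) ((hA a₀).2 hA0)
    (Ch_bal hbal τ A fun a ha => hnone a (by
      by_contra h3
      exact ha ((hA a).2 h3)))
    (fun U => z ≤ (Finset.univ.filter fun i => Ch_f χ U i = 0).card) (by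
      have h3 : (Finset.univ.filter fun i => Ch_f χ ∅ i = 0) = Finset.univ := by
        refine Finset.filter_true_of_mem fun i _ => ?_
        unfold Ch_f
        rw [Finset.filter_empty, Finset.card_empty]
      have h4 := Ch_ins χ ∅ a₀
      rw [h3, Finset.card_univ, Fintype.card_fin] at h4
      show z ≤ (Finset.univ.filter fun i => Ch_f χ {a₀} i = 0).card
      have h5 : (insert a₀ ∅ : Finset (Fin m)) = {a₀} := rfl
      rw [h5] at h4
      omega) (by
      intro U _ hU0 hU he
      have h3 : wtq t s π (Ch_f χ U) (Ch_e χ U) = s * (∏ i, t i) ^ 2 := by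
        rw [← Ch_prod t s π χ U]
        have h4 := hy.symm.trans he
        rw [mul_comm (β a₀)] at h4
        exact (mul_right_cancel₀ (hG.nβ a₀) h4).symm
      have h6 : z ≤ (Finset.univ.filter fun i => Ch_f χ U i = 0).card := hU
      have h7 : ∃ i, Ch_f χ U i = 0 := by
        have h8 : 0 < (Finset.univ.filter fun i => Ch_f χ U i = 0).card := by omega
        obtain ⟨i, hi⟩ := Finset.card_pos.1 h8
        exact ⟨i, (Finset.mem_filter.1 hi).2⟩
      obtain ⟨h8, h9⟩ := wq_full ht (hF U) (hE U) h3 h7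
      rcases hχ : χ a₀ with _ | i | u
      · exact hA0 hχ
      · have h10 := h8 i
        unfold Ch_f at h10
        rw [Finset.card_eq_zero, Finset.filter_eq_empty_iff] at h10
        exact h10 hU0 hχ
      · unfold Ch_e at h9
        rw [Finset.card_eq_zero, Finset.filter_eq_empty_iff] at h9
        exact h9 hU0 hχ)
  refine ⟨a, Ch_f χ U, Ch_e χ U, hF U, hE U, ?_, ?_⟩
  · have h3 := Ch_ins χ U a
    have h4 : z ≤ (Finset.univ.filter fun i => Ch_f χ U i = 0).card := hQ1
    have h5 : ¬ z ≤ (Finset.univ.filter fun i => Ch_f χ (insert a U) i = 0).card := hQ2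
    omega
  · rw [hβ, Ch_prod t s π χ U]

end PadDet.Eq
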