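import Mathlib

/-!
# MP_d7db32_ag, Eq/V/Fo: numbers of finite order with only the constant relation
-/

set_option autoImplicit false

namespace PadDet.Eq

private theorem Fo_digits : ∀ (r : ℕ) (d : ℕ → ℤ), (∀ i, i < r → |d i| ≤ 4) →
    ∑ i ∈ Finset.range r, 5 ^ i * d i = 0 → ∀ i, i < r → d i = 0 := by
  intro r
  induction r with
  | zero => intro d _ _ i hi; omega
  | succ r ih =>
    intro d hd hs
    rw [Finset.sum_range_succ'] at hs
    have e : ∑ i ∈ Finset.range r, (5 : ℤ) ^ (i + 1) * d (i + 1) =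
        5 * ∑ i ∈ Finset.range r, 5 ^ i * d (i + 1) := by
      rw [Finset.mul_sum]
      exact Finset.sum_congr rfl fun i _ => by ring
    rw [e, pow_zero, one_mul] at hs
    have h0 : d 0 = 0 := by
      have h1 := abs_le.1 (hd 0 (by omega))
      omega
    rw [h0, add_zero] at hs
    have h2 := ih (fun i => d (i + 1)) (fun i hi => hd (i + 1) (by omega)) (by omega)
    intro i hi
    rcases Nat.eq_zero_or_pos i with rfl | hi0
    · exact h0
    · obtain ⟨i', rfl⟩ : ∃ i', i = i' + 1 := ⟨i - 1, by omega⟩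
      exact h2 i' (by omega)

private theorem Fo_bound (r : ℕ) (d : ℕ → ℤ) (hd : ∀ i, i < r → |d i| ≤ 4) :
    |∑ i ∈ Finset.range r, 5 ^ i * d i| < 5 ^ r := by
  induction r with
  | zero => simp
  | succ r ih =>
    rw [Finset.sum_range_succ]
    have h1 := ih fun i hi => hd i (by omega)
    have h2 : |5 ^ r * d r| ≤ 5 ^ r * 4 := by
      rw [abs_mul, abs_of_nonneg (by positivity : (0 : ℤ) ≤ 5 ^ r)]
      exact mul_le_mul_of_nonneg_left (hd r (by omega)) (by positivity)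
    calc |∑ i ∈ Finset.range r, 5 ^ i * d i + 5 ^ r * d r| ≤
        |∑ i ∈ Finset.range r, 5 ^ i * d i| + |5 ^ r * d r| := abs_add_le _ _
      _ < 5 ^ r + 5 ^ r * 4 := by linarith
      _ = 5 ^ (r + 1) := by ring

private theorem Fo_prod {ζ : ℂ} (h : ζ ≠ 0) {ι : Type*} (s : Finset ι) (f : ι → ℤ) :
    ∏ b ∈ s, ζ ^ f b = ζ ^ ∑ b ∈ s, f b := by
  classical
  induction s using Finset.induction_on with
  | empty => rw [Finset.prod_empty, Finset.sum_empty, zpow_zero]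
  | insert a s ha ih =>
    rw [Finset.prod_insert ha, Finset.sum_insert ha, ih, zpow_add₀ h]

/-- Roots of unity with product one which have only constant relations with small exponents. -/
theorem exists_fo (r : ℕ) : ∃ t : Fin (r + 1) → ℂ,
    (∀ i, t i ^ (2 * 5 ^ (r + 1)) = 1) ∧ ∏ i, t i = 1 ∧
      ∀ w : Fin (r + 1) → ℤ, (∀ i, |w i| ≤ 2) → ∏ i, t i ^ (2 * w i) = 1 →
        ∀ i i', w i = w i' := by
  obtain ⟨N, hN⟩ : ∃ N : ℕ, N = 2 * 5 ^ (r + 1) := ⟨_, rfl⟩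
  have hN0 : N ≠ 0 := by rw [hN]; positivity
  obtain ⟨ζ, hζ⟩ : ∃ ζ : ℂ, IsPrimitiveRoot ζ N := ⟨_, Complex.isPrimitiveRoot_exp N hN0⟩
  have hζ0 : ζ ≠ 0 := hζ.ne_zero hN0
  obtain ⟨s, hs⟩ : ∃ s : ℤ, s = ∑ i ∈ Finset.range r, 5 ^ i := ⟨_, rfl⟩
  obtain ⟨a, ha⟩ : ∃ a : Fin (r + 1) → ℤ, a = Fin.snoc (fun i : Fin r => (5 : ℤ) ^ i.val) (-s) :=
    ⟨_, rfl⟩
  have ha1 : ∀ i : Fin r, a (Fin.castSucc i) = 5 ^ i.val := fun i => by
    rw [ha, Fin.snoc_castSucc]
  have ha2 : a (Fin.last r) = -s := by rw [ha, Fin.snoc_last]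
  have hpr : ∀ w : Fin (r + 1) → ℤ, ∏ i, (ζ ^ a i) ^ w i = ζ ^ (∑ i, a i * w i) := by
    intro w
    rw [← Fo_prod hζ0]
    exact Finset.prod_congr rfl fun i _ => (zpow_mul ζ _ _).symm
  refine ⟨fun i => ζ ^ a i, fun i => ?_, ?_, fun w hw h => ?_⟩
  · rw [← hN, ← zpow_natCast, ← zpow_mul, mul_comm, zpow_mul, zpow_natCast, hζ.pow_eq_one,
      one_zpow]
  · have h1 := hpr fun _ => 1
    simp only [zpow_one, mul_one] at h1
    rw [h1, Fin.sum_univ_castSucc, ha2]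
    simp only [ha1]
    rw [Fin.sum_univ_eq_sum_range (fun i => (5 : ℤ) ^ i) r, ← hs, add_neg_cancel, zpow_zero]
  · rw [hpr, hζ.zpow_eq_one_iff_dvd] at h
    obtain ⟨d, hd⟩ : ∃ d : ℕ → ℤ, ∀ i, d i =
        if hi : i < r then w (Fin.castSucc ⟨i, hi⟩) - w (Fin.last r) else 0 := ⟨_, fun _ => rfl⟩
    have hd' : ∀ i : Fin r, d i.val = w (Fin.castSucc i) - w (Fin.last r) := fun i => by
      rw [hd, dif_pos i.isLt]
    have hsum : ∑ i, a i * (2 * w i) = 2 * ∑ i ∈ Finset.range r, 5 ^ i * d i := by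
      rw [Fin.sum_univ_castSucc, ha2, ← Fin.sum_univ_eq_sum_range (fun i => (5 : ℤ) ^ i * d i) r,
        hs, ← Fin.sum_univ_eq_sum_range (fun i => (5 : ℤ) ^ i) r]
      simp only [ha1, hd', mul_sub]
      rw [Finset.sum_sub_distrib, ← Finset.sum_mul, mul_sub, Finset.mul_sum]
      have e : ∀ i : Fin r, (5 : ℤ) ^ i.val * (2 * w (Fin.castSucc i)) =
        2 * (5 ^ i.val * w (Fin.castSucc i)) := fun i => by ring
      simp only [e]
      ring
    rw [hsum, hN] at h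
    have hbd : ∀ i, i < r → |d i| ≤ 4 := by
      intro i hi
      rw [hd, dif_pos hi]
      have h1 := abs_le.1 (hw (Fin.castSucc ⟨i, hi⟩))
      have h2 := abs_le.1 (hw (Fin.last r))
      exact abs_le.2 (by omega)
    have hz : ∑ i ∈ Finset.range r, 5 ^ i * d i = 0 := by
      refine Int.eq_zero_of_abs_lt_dvd (m := 5 ^ r) ?_ (Fo_bound r d hbd)
      push_cast at h
      have h3 := Int.dvd_of_mul_dvd_mul_left (by norm_num : (2 : ℤ) ≠ 0) h
      exact (pow_dvd_pow 5 (Nat.le_succ r)).trans h3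
    have h4 := Fo_digits r d hbd hz
    have h5 : ∀ i : Fin (r + 1), w i = w (Fin.last r) := by
      intro i
      refine Fin.lastCases rfl (fun j => ?_) i
      have h6 := h4 j.val j.isLt
      rw [hd' j] at h6
      omega
    intro i i'
    rw [h5 i, h5 i']

end PadDet.Eq
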