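import Pool.Agent.H.MP_d7db32_ag.Eq.V.Wt
import Pool.Agent.H.MP_d7db32_ag.Eq.U.Mv

/-!
# MP_d7db32_ag, Eq/V/NmB: the product of the weights

`π = 1`, `x e = 1`, `x' (inl i) = t (lf i) * t (rt i)`, `x' (inr _) = s * t (ls k) ^ 2`. `diagonal α * (L + ∑ e, x e • M (mvE 1 e)) = (L + ∑ e, x' e • M (mvE 1 e)) * diagonal β` (entrywise, `gL`, `gE`, `gD`). Determinants (`hG.det`, `mv`, linearity of `M`):
`(∏ b, α b) * c * C₀ = c * C₀ * (∏ i, x' (inl i) ^ 2 * x' (inr ())) * ∏ a, β a` and `∏ i, x' (inl i) ^ 2 * x' (inr ()) = wtq t s 1 (fun _ => 2) 1 = s * (∏ i, t i) ^ 2` (`wq_two`).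
-/

set_option autoImplicit false

namespace PadDet.Eq

open Matrix

theorem nm_prod {k m : ℕ} {t : Fin (2 * k + 1) → ℂ} {s c : ℂ} {L : Matrix (Fin m) (Fin m) ℂ}
    {M : Matrix (Fin (2 * k + 1)) (Fin (2 * k + 1)) ℂ →ₗ[ℂ] Matrix (Fin m) (Fin m) ℂ}
    {β α : Fin m → ℂ} (hG : Zd t s m c L M β α) (ht : ∀ i, t i ≠ 0) (hs : s ≠ 0) :
    ∏ b, α b = s * (∏ i, t i) ^ 2 * ∏ a, β a := by
  obtain ⟨x', hx'⟩ : ∃ x' : Fin k ⊕ Unit → ℂ, x' = fun e => match e with
      | Sum.inl i => t (lf i) * t (rt i)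
      | Sum.inr _ => s * t (ls k) ^ 2 := ⟨_, rfl⟩
  have hxl : ∀ i, x' (Sum.inl i) = t (lf i) * t (rt i) := fun i => by rw [hx']
  have hxr : ∀ u, x' (Sum.inr u) = s * t (ls k) ^ 2 := fun u => by rw [hx']
  have hx0 : ∀ e, x' e ≠ 0 := by
    rintro (i | u)
    · rw [hxl]
      exact mul_ne_zero (ht _) (ht _)
    · rw [hxr]
      exact mul_ne_zero hs (pow_ne_zero _ (ht _))
  obtain ⟨C₀, hC₀, hmv⟩ := mv (1 : Equiv.Perm (Fin k))
  -- the entries
  have hent : ∀ e b a, α b * M (mvE 1 e) b a = x' e * M (mvE 1 e) b a * β a := by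
    intro e b a
    by_cases h0 : M (mvE 1 e) b a = 0
    · rw [h0]
      ring
    · rcases e with i | u
      · have h1 := hG.gE b a (lf i) (rt i) h0
        rw [h1, hxl]
        ring
      · have h1 := hG.gD b a (ls k) h0
        rw [h1, hxr]
        ring
  have hM : ∀ (x : Fin k ⊕ Unit → ℂ) b a, M (∑ e, x e • mvE 1 e) b a =
      ∑ e, x e * M (mvE 1 e) b a := by
    intro x b a
    rw [map_sum, Matrix.sum_apply]
    refine Finset.sum_congr rfl fun e _ => ?_
    rw [map_smul]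
    rfl
  have hmat : Matrix.diagonal α * (L + M (∑ e, (fun _ => (1 : ℂ)) e • mvE 1 e)) =
      (L + M (∑ e, x' e • mvE 1 e)) * Matrix.diagonal β := by
    ext b a
    rw [Matrix.diagonal_mul, Matrix.mul_diagonal, Matrix.add_apply, Matrix.add_apply, hM, hM,
      mul_add, add_mul, Finset.mul_sum, Finset.sum_mul]
    congr 1
    · by_cases h0 : L b a = 0
      · rw [h0]
        ring
      · rw [hG.gL b a h0]
        ring
    · refine Finset.sum_congr rfl fun e _ => ?_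
      rw [one_mul]
      exact hent e b a
  have hdet := congrArg Matrix.det hmat
  rw [Matrix.det_mul, Matrix.det_mul, Matrix.det_diagonal, Matrix.det_diagonal, hG.det, hG.det,
    hmv _ fun _ => one_ne_zero, hmv _ hx0] at hdet
  have h1 : ∏ e : Fin k ⊕ Unit, (1 : ℂ) ^ mvd e = 1 := Finset.prod_eq_one fun e _ => one_pow _
  have h2 : ∏ e, x' e ^ mvd e = s * (∏ i, t i) ^ 2 := by
    rw [← wq_two t s 1, Fintype.prod_sum_type]
    unfold wtq
    congr 1
    · refine Finset.prod_congr rfl fun i _ => ?_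
      rw [hxl]
      rfl
    · rw [Fintype.prod_unique, hxr]
      rfl
  rw [h2] at hdet
  simp only [one_pow, Finset.prod_const_one, mul_one] at hdet
  have hc : c * C₀ ≠ 0 := mul_ne_zero hG.c0 hC₀
  apply mul_left_cancel₀ hc
  linear_combination hdet

end PadDet.Eq
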