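import Pool.Agent.H.MP_d7db32_ag.Eq.V.NmA
import Pool.Agent.H.MP_d7db32_ag.Eq.V.NmB

/-!
# MP_d7db32_ag, Eq/V/Nm: normal form of a pencil with weights

`det L = c * Fv 0 = 0`. `nm_sig`: `a₀`, `σ`, `v`. Let `v' a = v a` if `β a = β a₀`, else `0`; then `L *ᵥ v' = 0` (the row `b` of `L` sees only the columns of weight `α b`: if `α b = β a₀` then `(L v') b = (L v) b`, else `0`), `v' a₀ ≠ 0`.
`K = (1 : Matrix _ _ ℂ).updateCol a₀ v'`, `det K = v' a₀ ≠ 0`, `L' = L * K`, `M' X = M X * K` (`lcg 1 K M` from L/Bch, up to `one_mul`), `c' = c * det K`. The column `a ≠ a₀` of `L'` is that of `L`, the column `a₀` is `L v' = 0`;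
`(M X * K) b a₀ = ∑ a, (M X) b a * v' a`, if it is not zero then some `(M X) b a ≠ 0` with `β a = β a₀`, so the weights are still right.
Balance: `α (σ a) = β a` for `a ≠ a₀` (`gL`); `y = α (σ a₀)`: the number of the `b` with `α b = ω` is the number of the `a` with `α (σ a) = ω`, which agrees with the number of the `a` with `β a = ω` up to the term `a₀`.
`y = s * (∏ t) ^ 2 * β a₀`: `(∏ b, α b) * β a₀ = (∏ a, α (σ a)) * β a₀ = (∏ a, β a) * α (σ a₀)`, `nm_prod`, `∏ a, β a ≠ 0`.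
-/

set_option autoImplicit false

namespace PadDet.Eq

open Matrix

private theorem Nm_mulK {m : ℕ} (N : Matrix (Fin m) (Fin m) ℂ) (a₀ : Fin m) (v : Fin m → ℂ)
    (b a : Fin m) : (N * (1 : Matrix (Fin m) (Fin m) ℂ).updateCol a₀ v) b a =
      if a = a₀ then (N *ᵥ v) b else N b a := by
  rw [Matrix.mul_apply]
  split_ifs with h
  · subst h
    simp only [Matrix.updateCol_self]
    rfl
  · simp only [Matrix.updateCol_ne h]
    rw [Finset.sum_eq_single a]
    · rw [Matrix.one_apply_eq, mul_one]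
    · intro x _ hx
      rw [Matrix.one_apply_ne hx, mul_zero]
    · intro h1
      exact absurd (Finset.mem_univ a) h1

private theorem Nm_detK {m : ℕ} (a₀ : Fin m) (v : Fin m → ℂ) :
    ((1 : Matrix (Fin m) (Fin m) ℂ).updateCol a₀ v).det = v a₀ := by
  rw [← Matrix.cramer_apply, Matrix.cramer_one]
  rfl

/-- counting -/
private theorem Nm_cnt {m : ℕ} (σ : Equiv.Perm (Fin m)) (β α : Fin m → ℂ) (a₀ : Fin m)
    (h : ∀ a, a ≠ a₀ → α (σ a) = β a) (ω : ℂ) :
    (Finset.univ.filter fun a => β a = ω).card + (if ω = α (σ a₀) then 1 else 0) =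
      (Finset.univ.filter fun b => α b = ω).card + (if ω = β a₀ then 1 else 0) := by
  have h1 : (Finset.univ.filter fun b => α b = ω).card = ∑ a, if α (σ a) = ω then 1 else 0 := by
    rw [Finset.card_filter]
    exact (Equiv.sum_comp σ (fun b => if α b = ω then 1 else 0)).symm
  rw [h1, Finset.card_filter, ← Finset.add_sum_erase Finset.univ _ (Finset.mem_univ a₀),
    ← Finset.add_sum_erase Finset.univ (fun a => if α (σ a) = ω then 1 else 0)
      (Finset.mem_univ a₀)]
  have h2 : ∑ a ∈ Finset.univ.erase a₀, (if α (σ a) = ω then 1 else 0) =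
      ∑ a ∈ Finset.univ.erase a₀, (if β a = ω then 1 else 0) := by
    refine Finset.sum_congr rfl fun a ha => ?_
    rw [h a (Finset.ne_of_mem_erase ha)]
  rw [h2]
  have h3 : (if ω = α (σ a₀) then 1 else 0) = (if α (σ a₀) = ω then 1 else 0) := by
    simp only [eq_comm]
  have h4 : (if ω = β a₀ then 1 else 0) = (if β a₀ = ω then 1 else 0) := by
    simp only [eq_comm]
  rw [h3, h4]
  omega

theorem nml {k m : ℕ} {t : Fin (2 * k + 1) → ℂ} {s c : ℂ} {L : Matrix (Fin m) (Fin m) ℂ}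
    {M : Matrix (Fin (2 * k + 1)) (Fin (2 * k + 1)) ℂ →ₗ[ℂ] Matrix (Fin m) (Fin m) ℂ}
    {β α : Fin m → ℂ} (hG : Zd t s m c L M β α) (ht : ∀ i, t i ≠ 0) (hs : s ≠ 0)
    (hadj : L.adjugate ≠ 0) :
    ∃ (c' : ℂ) (L' : Matrix (Fin m) (Fin m) ℂ)
      (M' : Matrix (Fin (2 * k + 1)) (Fin (2 * k + 1)) ℂ →ₗ[ℂ] Matrix (Fin m) (Fin m) ℂ)
      (a₀ : Fin m) (y : ℂ), Zd t s m c' L' M' β α ∧ (∀ b, L' b a₀ = 0) ∧
      y = s * (∏ i, t i) ^ 2 * β a₀ ∧ ∀ ω : ℂ,
        (Finset.univ.filter fun a => β a = ω).card + (if ω = y then 1 else 0) =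
        (Finset.univ.filter fun b => α b = ω).card + (if ω = β a₀ then 1 else 0) := by
  have hdet : L.det = 0 := by
    have h := hG.det 0
    have hF : Fv (0 : Matrix (Fin (2 * k + 1)) (Fin (2 * k + 1)) ℂ) = 0 := by
      unfold Fv
      rw [Matrix.transpose_zero, add_zero, mul_zero, Matrix.trace_zero]
    rwa [map_zero, add_zero, hF, mul_zero] at h
  obtain ⟨a₀, σ, v, hσ, hLv, hv⟩ := nm_sig hdet hadj
  classical
  set v' : Fin m → ℂ := fun a => if β a = β a₀ then v a else 0 with hv'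
  have hv0 : v' a₀ ≠ 0 := by
    rw [hv']
    simp only [if_true]
    exact hv
  have hv1 : ∀ a, v' a ≠ 0 → β a = β a₀ := by
    intro a ha
    by_contra h
    apply ha
    rw [hv']
    simp only [if_neg h]
  have hLv' : L *ᵥ v' = 0 := by
    funext b
    show ∑ a, L b a * v' a = 0
    by_cases hb : α b = β a₀
    · have h1 : ∑ a, L b a * v a = 0 := congrFun hLv b
      rw [← h1]
      refine Finset.sum_congr rfl fun a _ => ?_
      by_cases hL : L b a = 0
      · rw [hL, zero_mul, zero_mul]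
      · have h2 : β a = β a₀ := (hG.gL b a hL).symm.trans hb
        rw [hv']
        simp only [if_pos h2]
    · refine Finset.sum_eq_zero fun a _ => ?_
      by_cases hL : L b a = 0
      · rw [hL, zero_mul]
      · have h2 : ¬ β a = β a₀ := fun h3 => hb ((hG.gL b a hL).trans h3)
        rw [hv']
        simp only [if_neg h2, mul_zero]
  set K : Matrix (Fin m) (Fin m) ℂ := (1 : Matrix (Fin m) (Fin m) ℂ).updateCol a₀ v' with hK
  have hKdet : K.det = v' a₀ := Nm_detK a₀ v'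
  have hent : ∀ (N : Matrix (Fin m) (Fin m) ℂ) (z : ℂ), (∀ b a, N b a ≠ 0 → α b = z * β a) →
      ∀ b a, (N * K) b a ≠ 0 → α b = z * β a := by
    intro N z hN b a hba
    rw [hK, Nm_mulK] at hba
    split_ifs at hba with h
    · have hba' : ∑ x, N b x * v' x ≠ 0 := hba
      obtain ⟨x, -, hx⟩ := Finset.exists_ne_zero_of_sum_ne_zero hba'
      rw [h, ← hv1 x (right_ne_zero_of_mul hx)]
      exact hN b x (left_ne_zero_of_mul hx)
    · exact hN b a hba
  have hM' : ∀ X, lcg 1 K M X = M X * K := by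
    intro X
    change 1 * M X * K = M X * K
    rw [Matrix.one_mul]
  refine ⟨c * K.det, L * K, lcg 1 K M, a₀, α (σ a₀), ⟨?_, ?_, ?_, ?_, ?_, hG.nβ, hG.nα⟩, ?_, ?_, ?_⟩
  · rw [hKdet]
    exact mul_ne_zero hG.c0 hv0
  · intro X
    rw [hM' X, ← Matrix.add_mul, Matrix.det_mul, hG.det X]
    ring
  · intro b a hba
    have h1 := hent L 1 (fun b a h => by rw [one_mul]; exact hG.gL b a h) b a hba
    rwa [one_mul] at h1
  · intro b a i j hba
    rw [hM'] at hba
    exact hent _ _ (fun b a h => hG.gE b a i j h) b a hba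
  · intro b a i hba
    rw [hM'] at hba
    exact hent _ _ (fun b a h => hG.gD b a i h) b a hba
  · intro b
    rw [hK, Nm_mulK, if_pos rfl, hLv']
    rfl
  · have hαβ : ∀ a, a ≠ a₀ → α (σ a) = β a := fun a ha => hG.gL _ _ (hσ a ha)
    have h1 : ∏ b, α b = α (σ a₀) * ∏ a ∈ Finset.univ.erase a₀, β a := by
      rw [← Equiv.prod_comp σ α, ← Finset.mul_prod_erase Finset.univ _ (Finset.mem_univ a₀)]
      congr 1
      exact Finset.prod_congr rfl fun a ha => hαβ a (Finset.ne_of_mem_erase ha)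
    have h2 : ∏ a, β a = β a₀ * ∏ a ∈ Finset.univ.erase a₀, β a :=
      (Finset.mul_prod_erase Finset.univ _ (Finset.mem_univ a₀)).symm
    have h3 : ∏ a ∈ Finset.univ.erase a₀, β a ≠ 0 :=
      Finset.prod_ne_zero_iff.2 fun a _ => hG.nβ a
    have h4 := nm_prod hG ht hs
    rw [h1, h2] at h4
    apply mul_right_cancel₀ h3
    rw [h4]
    ring
  · exact Nm_cnt σ β α a₀ (fun a ha => hG.gL _ _ (hσ a ha))

end PadDet.Eq
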