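import Mathlib

/-!
# MP_d7db32_ag, Eq/V/NmA: a singular matrix with nonzero adjugate

Take `adj L a₀ b₀ ≠ 0`. `v a = adj L a b₀`: `L * adj L = det L • 1 = 0` (`Matrix.mul_adjugate`). `adj L a₀ b₀ = det (L.updateRow b₀ (Pi.single a₀ 1))` (`Matrix.adjugate_apply`) has a nonzero term `σ` (`Matrix.det_apply`):
`(L.updateRow b₀ (Pi.single a₀ 1)) (σ a) a ≠ 0` for all `a`. The column `a` with `σ a = b₀` is `a₀`, so for `a ≠ a₀` the row `σ a` is not `b₀` and `L (σ a) a ≠ 0`.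
-/

set_option autoImplicit false

namespace PadDet.Eq

open Matrix

theorem nm_sig {m : ℕ} {L : Matrix (Fin m) (Fin m) ℂ} (h0 : L.det = 0) (hadj : L.adjugate ≠ 0) :
    ∃ (a₀ : Fin m) (σ : Equiv.Perm (Fin m)) (v : Fin m → ℂ),
      (∀ a, a ≠ a₀ → L (σ a) a ≠ 0) ∧ L *ᵥ v = 0 ∧ v a₀ ≠ 0 := by
  obtain ⟨a₀, b₀, hab⟩ : ∃ a b, L.adjugate a b ≠ 0 := by
    by_contra h
    push Not at h
    exact hadj (by ext a b; exact h a b)
  have h1 : (L.updateRow b₀ (Pi.single a₀ 1)).det ≠ 0 := by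
    rw [← adjugate_apply]
    exact hab
  obtain ⟨σ, hσ⟩ : ∃ σ : Equiv.Perm (Fin m),
      ∏ a, (L.updateRow b₀ (Pi.single a₀ 1)) (σ a) a ≠ 0 := by
    by_contra h
    push Not at h
    apply h1
    rw [det_apply]
    refine Finset.sum_eq_zero fun σ _ => ?_
    rw [h σ, smul_zero]
  have h2 : ∀ a, (L.updateRow b₀ (Pi.single a₀ 1)) (σ a) a ≠ 0 :=
    fun a ha => hσ (Finset.prod_eq_zero (Finset.mem_univ a) ha)
  have h3 : ∀ a, σ a = b₀ → a = a₀ := by
    intro a ha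
    by_contra hne
    apply h2 a
    rw [ha, updateRow_self, Pi.single_eq_of_ne hne]
  refine ⟨a₀, σ, fun a => L.adjugate a b₀, ?_, ?_, hab⟩
  · intro a ha hL
    have hb : σ a ≠ b₀ := fun h => ha (h3 a h)
    apply h2 a
    rw [updateRow_ne hb]
    exact hL
  · ext i
    have := congrFun (congrFun (mul_adjugate L) i) b₀
    rw [h0, zero_smul] at this
    exact this

end PadDet.Eq
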